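import Pool.Graph.R_pool_sql_team_ae5b0c61.Results.MP_86031e_co.FourFifths

/-!
# The bound `α ≥ ⌊4n/5⌋` for I-graphs

The I-graph `I(n,j,k)` has the vertices `u_i`, `v_i` (`i` modulo `n`) and the edges `u_i u_{i+j}`,
`u_i v_i`, `v_i v_{i+k}`; the generalized Petersen graph `P(n,k)` is `I(n,1,k)`.  We show that
`α (I(n,j,k)) ≥ ⌊4n/5⌋` and `β (I(n,j,k)) ≤ n + ⌈n/5⌉` hold for all I-graphs with
`gcd (n,j,k) = 1`, with exactly one exception up to isomorphism, `I(15,3,5)`.
-/

set_option autoImplicit false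

namespace Pool.Agent.Results.MP_86031e_co.ConnectedIGraphs

open Finset FourFifths

/-- The I-graph `I(n,j,k)`: `(i, false)` is `u_i` and `(i, true)` is `v_i`. -/
def IG (n j k : ℕ) : SimpleGraph (ZMod n × Bool) :=
  SimpleGraph.fromRel (fun x y =>
    (x.2 = false ∧ y.2 = false ∧ y.1 = x.1 + (j : ZMod n)) ∨
      (x.2 = false ∧ y.2 = true ∧ y.1 = x.1) ∨
      (x.2 = true ∧ y.2 = true ∧ y.1 = x.1 + (k : ZMod n)))

lemma avg2 {n : ℕ} [NeZero n] (j k : ℕ) (a i' j' : ℤ) (m : ℕ)
    (h : (2 * a * j - n - 2 * n * i').natAbs + (2 * a * k - n - 2 * n * j').natAbs + 2 * m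
      ≤ 2 * n + 1) : Good n j k m := by
  have hn : 0 < n := Nat.pos_of_ne_zero (NeZero.ne n)
  set b := 2 * a * j - n - 2 * n * i' with hb
  set c := 2 * a * k - n - 2 * n * j' with hc
  set x : ZMod n → ℤ := fun i => 2 * a * i.val with hx
  have sh : ∀ (s : ℕ) (i : ZMod n) (θ : ℤ), low n (x (i + s) + θ) ↔ low n (x i + θ + 2 * a * s) := by
    intro s i θ
    have : ((i + s).val : ℤ) = i.val + s + n * (-(((i.val + s) / n : ℕ) : ℤ)) := by
      rw [ZMod.val_add, ZMod.val_natCast, Nat.add_mod_mod]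
      have := Nat.mod_add_div (i.val + s) n
      zify at this ⊢
      linarith
    simp only [hx]
    rw [this, ← low_add n (2 * a * i.val + θ + 2 * a * s) (a * -(((i.val + s) / n : ℕ) : ℤ))]
    congr! 1
    ring
  set C1 : ℕ → Finset (ZMod n) := fun θ =>
    univ.filter (fun i => low n (x i + θ) ∧ low n (x i + θ + n + b)) with hC1
  set C2 : ℕ → Finset (ZMod n) := fun θ =>
    univ.filter (fun i => low n (x i + n + θ) ∧ low n (x i + n + θ + n + c)) with hC2
  have s1 : ∑ θ ∈ range (2 * n), (C1 θ).card ≤ n * b.natAbs := by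
    simp only [hC1, card_filter]
    rw [sum_comm]
    refine (sum_le_card_nsmul _ _ b.natAbs (fun i _ => ?_)).trans (by simp)
    rw [← card_filter]; exact cnt hn _ _
  have s2 : ∑ θ ∈ range (2 * n), (C2 θ).card ≤ n * c.natAbs := by
    simp only [hC2, card_filter]
    rw [sum_comm]
    refine (sum_le_card_nsmul _ _ c.natAbs (fun i _ => ?_)).trans (by simp)
    rw [← card_filter]; exact cnt hn _ _
  obtain ⟨θ, -, hθ⟩ : ∃ θ ∈ range (2 * n),
      2 * ((C1 θ).card + (C2 θ).card) ≤ b.natAbs + c.natAbs := by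
    by_contra hh
    push Not at hh
    have := card_nsmul_le_sum (range (2 * n)) (fun θ => 2 * ((C1 θ).card + (C2 θ).card))
      (b.natAbs + c.natAbs + 1) (fun θ h => hh θ h)
    rw [← mul_sum, sum_add_distrib, card_range, smul_eq_mul] at this
    nlinarith
  set L := univ.filter (fun i : ZMod n => low n (x i + θ)) with hL
  set L' := univ.filter (fun i : ZMod n => ¬ low n (x i + θ)) with hL'
  refine ⟨L \ C1 θ, L' \ C2 θ, ?_, ?_, ?_, ?_⟩
  · exact Disjoint.mono sdiff_subset sdiff_subset (disjoint_filter_filter_not _ _ _)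
  · intro i hi hi'
    simp only [hL, hC1, mem_sdiff, mem_filter, mem_univ, true_and] at hi hi'
    have := (sh j i θ).1 hi'.1
    refine hi.2 ⟨hi.1, ?_⟩
    rw [show x i + θ + n + b = x i + θ + 2 * a * j + 2 * n * (-i') by rw [hb]; ring, low_add]
    exact this
  · intro i hi hi'
    simp only [hL', hC2, mem_sdiff, mem_filter, mem_univ, true_and] at hi hi'
    have := mt (sh k i θ).2 hi'.1
    refine hi.2 ⟨?_, ?_⟩
    · rw [show x i + n + θ = x i + θ + n by ring, low_flip hn]; exact hi.1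
    · rw [show x i + n + θ + n + c = x i + θ + 2 * a * k + n + 2 * n * (-j') by rw [hc]; ring,
        low_add, low_flip hn]
      exact this
  · have e : L.card + L'.card = n := by
      rw [hL, hL', card_filter_add_card_filter_not]; simp
    have := le_card_sdiff (C1 θ) L
    have := le_card_sdiff (C2 θ) L'
    omega

def Short2 (n j k M : ℕ) : Prop :=
  ∃ p q s : ℤ, p * k - q * j = n * s ∧ (p ≠ 0 ∨ q ≠ 0) ∧ p.natAbs ≤ M ∧ q.natAbs ≤ M

lemma thue2 {n : ℕ} (hn : 0 < n) (j k : ℕ) : Short2 n j k (Nat.sqrt n) := by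
  set r := Nat.sqrt n with hr
  have : NeZero n := ⟨by omega⟩
  obtain ⟨x, y, hne, e⟩ := Fintype.exists_ne_map_eq_of_card_lt
    (fun x : Fin (r + 1) × Fin (r + 1) => ((x.1.val * k - x.2.val * j : ℤ) : ZMod n))
    (by simpa using Nat.lt_succ_sqrt n)
  obtain ⟨s, hs⟩ := (ZMod.intCast_eq_intCast_iff_dvd_sub _ _ _).1 e
  have h1 := x.1.2
  have h2 := x.2.2
  have h3 := y.1.2
  have h4 := y.2.2
  refine ⟨y.1.val - x.1.val, y.2.val - x.2.val, s, by linear_combination hs, ?_, by omega,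
    by omega⟩
  by_contra hh
  exact hne (Prod.ext (Fin.ext (by omega)) (Fin.ext (by omega)))

lemma lattice2 {n j k : ℕ} (hn : 100 ≤ n) (hg : Nat.gcd (Nat.gcd n j) k = 1)
    (hj : Nat.gcd n j ≠ 1) (hk : Nat.gcd n k ≠ 1) :
    ∃ a i' j' : ℤ, (2 * a * j - n - 2 * n * i').natAbs + (2 * a * k - n - 2 * n * j').natAbs +
      2 * (4 * n / 5) ≤ 2 * n + 1 := by
  classical
  have ex : ∃ M, Short2 n j k M := ⟨_, thue2 (by omega) j k⟩
  set M := Nat.find ex with hM
  have hMn : M * M ≤ n :=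
    (Nat.mul_le_mul (Nat.find_le (thue2 (by omega) j k))
      (Nat.find_le (thue2 (by omega) j k))).trans (Nat.sqrt_le n)
  obtain ⟨p, q, s, e, h0, hp, hq⟩ := Nat.find_spec ex
  rw [← hM] at hp hq
  have M1 : 1 ≤ M := by omega
  have hmax : p.natAbs = M ∨ q.natAbs = M := by
    by_contra hh
    exact Nat.find_min ex (show M - 1 < M by omega) ⟨p, q, s, e, h0, by omega, by omega⟩
  obtain ⟨a0, j0, i0, bez⟩ : ∃ a0 j0 i0 : ℤ, a0 * s + p * j0 - q * i0 = 1 := by
    set g := Int.gcd p q with hg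
    set d := Int.gcd s g with hd
    have g0 : 0 < g := Int.gcd_pos_iff.2 h0
    have d0 : 0 < d := Int.gcd_pos_iff.2 (Or.inr (by omega))
    have d1 : d = 1 := by
      by_contra hh
      obtain ⟨s', hs'⟩ : (d : ℤ) ∣ s := Int.gcd_dvd_left _ _
      have dg : (d : ℤ) ∣ g := Int.gcd_dvd_right _ _
      obtain ⟨p', hp'⟩ : (d : ℤ) ∣ p := dg.trans (Int.gcd_dvd_left _ _)
      obtain ⟨q', hq'⟩ : (d : ℤ) ∣ q := dg.trans (Int.gcd_dvd_right _ _)
      have k1 : p.natAbs = d * p'.natAbs := by rw [hp', Int.natAbs_mul]; simp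
      have k2 : q.natAbs = d * q'.natAbs := by rw [hq', Int.natAbs_mul]; simp
      have d2 : 2 ≤ d := by omega
      refine Nat.find_min ex (show M / 2 < M by omega) ⟨p', q', s', ?_, ?_, ?_, ?_⟩
      · refine mul_left_cancel₀ (show (d : ℤ) ≠ 0 by omega) ?_
        rw [hs', hp', hq'] at e
        linear_combination e
      · by_contra hh
        push Not at hh
        rw [hp', hq', hh.1, hh.2] at h0
        simp at h0
      · have := Nat.mul_le_mul_right p'.natAbs d2
        omega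
      · have := Nat.mul_le_mul_right q'.natAbs d2
        omega
    have b1 := Int.gcd_eq_gcd_ab p q
    have b2 := Int.gcd_eq_gcd_ab s g
    rw [← hd, d1] at b2
    rw [← hg] at b1
    refine ⟨Int.gcdA s g, Int.gcdA p q * Int.gcdB s g, -(Int.gcdB p q * Int.gcdB s g), ?_⟩
    push_cast at b2
    linear_combination -b2 - Int.gcdB s g * b1
  obtain ⟨β, ε, hε, hβ⟩ : ∃ (β : ℤ) (ε : ℕ), ε ≤ 1 ∧ 2 * β - (p - q) = ε :=
    ⟨(p - q + 1) / 2, ((p - q) % 2).toNat, by omega, by omega⟩
  -- the gcds divide the coordinates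
  have dp : ((Nat.gcd n j : ℕ) : ℤ) ∣ p := by
    have h1 : ((Nat.gcd n j : ℕ) : ℤ) ∣ p * k := by
      have e1 : p * k = n * s + q * j := by linarith
      rw [e1]
      exact dvd_add ((Int.natCast_dvd_natCast.2 (Nat.gcd_dvd_left n j)).mul_right s)
        ((Int.natCast_dvd_natCast.2 (Nat.gcd_dvd_right n j)).mul_left q)
    exact (Nat.isCoprime_iff_coprime.2 hg).dvd_of_dvd_mul_right h1
  have hg' : Nat.gcd (Nat.gcd n k) j = 1 := by
    rw [Nat.gcd_assoc, Nat.gcd_comm k j, ← Nat.gcd_assoc]; exact hg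
  have dq : ((Nat.gcd n k : ℕ) : ℤ) ∣ q := by
    have h1 : ((Nat.gcd n k : ℕ) : ℤ) ∣ q * j := by
      have e1 : q * j = p * k - n * s := by linarith
      rw [e1]
      exact dvd_sub ((Int.natCast_dvd_natCast.2 (Nat.gcd_dvd_right n k)).mul_left p)
        ((Int.natCast_dvd_natCast.2 (Nat.gcd_dvd_left n k)).mul_right s)
    exact (Nat.isCoprime_iff_coprime.2 hg').dvd_of_dvd_mul_right h1
  have gp : Nat.gcd n j ≠ 0 := fun h => by
    have := (Nat.gcd_eq_zero_iff.1 h).1
    omega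
  have gq : Nat.gcd n k ≠ 0 := fun h => by
    have := (Nat.gcd_eq_zero_iff.1 h).1
    omega
  have h3 : ε = 0 ∨ 3 ≤ M := by
    by_contra hh
    have hp2 : p = 0 ∨ 2 ≤ p.natAbs := by
      by_cases hp0 : p = 0
      · exact Or.inl hp0
      · right
        have := Nat.le_of_dvd (by omega) (Int.natCast_dvd.1 dp)
        omega
    have hq2 : q = 0 ∨ 2 ≤ q.natAbs := by
      by_cases hq0 : q = 0
      · exact Or.inl hq0
      · right
        have := Nat.le_of_dvd (by omega) (Int.natCast_dvd.1 dq)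
        omega
    omega
  -- a Bezout relation for `n`, `j`, `k`
  obtain ⟨u, v, w, huv⟩ : ∃ u v w : ℤ, u * j + v * k + w * n = 1 := by
    obtain ⟨x1, y1, b1⟩ : ∃ x y : ℤ, ((Nat.gcd n j : ℕ) : ℤ) = n * x + j * y :=
      ⟨_, _, Nat.gcd_eq_gcd_ab n j⟩
    obtain ⟨x2, y2, b2⟩ : ∃ x y : ℤ, (((Nat.gcd (Nat.gcd n j) k : ℕ)) : ℤ) =
        ((Nat.gcd n j : ℕ) : ℤ) * x + k * y := ⟨_, _, Nat.gcd_eq_gcd_ab _ k⟩
    rw [hg, b1] at b2
    push_cast at b2
    exact ⟨y1 * x2, y2, x1 * x2, by linear_combination -b2⟩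
  have gen : ∀ α : ℤ, p * (2 * α * q + (2 * β * (a0 * k + n * j0) - n))
      - q * (2 * α * p + (2 * β * (a0 * j + n * i0) - n)) = n * ε := by
    intro α
    linear_combination 2 * β * a0 * e + 2 * β * n * bez + n * hβ
  have out : ∀ α : ℤ, (2 * α * p + (2 * β * (a0 * j + n * i0) - n)).natAbs +
      (2 * α * q + (2 * β * (a0 * k + n * j0) - n)).natAbs + 2 * (4 * n / 5) ≤ 2 * n + 1 →
      ∃ a i' j' : ℤ, (2 * a * j - n - 2 * n * i').natAbs +
        (2 * a * k - n - 2 * n * j').natAbs + 2 * (4 * n / 5) ≤ 2 * n + 1 := by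
    intro α h
    -- `(p, q) = (a1 j - n i1, a1 k - n j1)` with `a1 = u p + v q`
    refine ⟨α * (u * p + v * q) + β * a0, α * (-(v * s) - w * p) - β * i0,
      α * (u * s - w * q) - β * j0, ?_⟩
    convert h using 4
    · linear_combination 2 * α * p * huv - 2 * α * v * e
    · linear_combination 2 * α * q * huv + 2 * α * u * e
  rcases hmax with h | h
  · obtain ⟨α, hα⟩ := near p (2 * β * (a0 * j + n * i0) - n) (by omega)
    refine out α (finish hn hMn M1 (by omega) ?_ hε h3)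
    have g := gen α
    generalize 2 * α * p + (2 * β * (a0 * j + n * i0) - n) = b at *
    generalize 2 * α * q + (2 * β * (a0 * k + n * j0) - n) = c at *
    have e1 : p * c = n * ε + q * b := by linarith
    have e2 := Int.natAbs_add_le ((n : ℤ) * ε) (q * b)
    rw [← e1, Int.natAbs_mul, Int.natAbs_mul, Int.natAbs_mul, h] at e2
    simp only [Int.natAbs_natCast] at e2
    have := Nat.mul_le_mul hq (hα.trans hp)
    omega
  · obtain ⟨α, hα⟩ := near q (2 * β * (a0 * k + n * j0) - n) (by omega)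
    refine out α ?_
    rw [add_comm (Int.natAbs _)]
    refine finish hn hMn M1 (by omega) ?_ hε h3
    have g := gen α
    generalize 2 * α * p + (2 * β * (a0 * j + n * i0) - n) = b at *
    generalize 2 * α * q + (2 * β * (a0 * k + n * j0) - n) = c at *
    have e1 : q * b = p * c - n * ε := by linarith
    have e2 := Int.natAbs_sub_le (p * c) ((n : ℤ) * ε)
    rw [← e1, Int.natAbs_mul, Int.natAbs_mul, Int.natAbs_mul, h] at e2
    simp only [Int.natAbs_natCast] at e2
    have := Nat.mul_le_mul hp (hα.trans hq)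
    omega

/-! ### Symmetries -/

lemma good_swap {n : ℕ} {s t : ZMod n} {m : ℕ} (h : Good n s t m) : Good n t s m := by
  obtain ⟨A, B, h1, h2, h3, h4⟩ := h
  exact ⟨B, A, h1.symm, h3, h2, by omega⟩

lemma good_neg {n : ℕ} {s t : ZMod n} {m : ℕ} (h : Good n s (-t) m) : Good n s t m := by
  obtain ⟨A, B, h1, h2, h3, h4⟩ := h
  exact ⟨A, B, h1, h2, fun i hi hi' => h3 (i + t) hi' (by simpa using hi), h4⟩

lemma good_unit {n : ℕ} {s t u : ZMod n} (hu : IsUnit u) {m : ℕ} (h : Good n s t m) :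
    Good n (u * s) (u * t) m := by
  obtain ⟨A, B, h1, h2, h3, h4⟩ := h
  have inj : Function.Injective (fun i : ZMod n => u * i) := hu.mul_right_injective
  refine ⟨A.image (fun i => u * i), B.image (fun i => u * i), (disjoint_image inj).2 h1, ?_, ?_,
    ?_⟩
  · intro i hi hi'
    obtain ⟨a, ha, rfl⟩ := mem_image.1 hi
    obtain ⟨b, hb, e⟩ := mem_image.1 hi'
    have : b = a + s := inj (by simp only; rw [e]; ring)
    exact h2 a ha (this ▸ hb)
  · intro i hi hi'
    obtain ⟨a, ha, rfl⟩ := mem_image.1 hi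
    obtain ⟨b, hb, e⟩ := mem_image.1 hi'
    have : b = a + t := inj (by simp only; rw [e]; ring)
    exact h3 a ha (this ▸ hb)
  · rw [card_image_of_injective _ inj, card_image_of_injective _ inj]; exact h4

lemma good_coprime {n j k : ℕ} (hj : Nat.gcd n j = 1) (hk : 1 ≤ k) (hkn : 2 * k < n) :
    Good n j k (4 * n / 5) := by
  have : NeZero n := ⟨by omega⟩
  have hu : IsUnit (j : ZMod n) := (ZMod.isUnit_iff_coprime j n).2 (Nat.Coprime.symm hj)
  obtain ⟨u, hu⟩ := hu
  set t : ZMod n := (↑u⁻¹ : ZMod n) * k with ht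
  have hut : (u : ZMod n) * t = k := by rw [ht, ← mul_assoc]; simp
  have h2t : 2 * t ≠ 0 := by
    intro h
    have h1 : (u : ZMod n) * (2 * t) = 0 := by rw [h, mul_zero]
    have h2 : ((2 * k : ℕ) : ZMod n) = 0 := by
      push_cast
      rw [← hut]
      linear_combination h1
    have h3 := (ZMod.natCast_eq_zero_iff _ _).1 h2
    exact absurd (Nat.le_of_dvd (by omega) h3) (by omega)
  have hv : ((t.val : ℕ) : ZMod n) = t := ZMod.natCast_zmod_val t
  have hlt := ZMod.val_lt t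
  have key : Good n 1 t (4 * n / 5) := by
    have h0 : t.val ≠ 0 := by
      intro h
      rw [h] at hv
      apply h2t
      rw [← hv]
      simp
    have h1 : 2 * t.val ≠ n := by
      intro h
      apply h2t
      have : ((2 * t.val : ℕ) : ZMod n) = 0 := by rw [h]; exact ZMod.natCast_self n
      push_cast at this
      rwa [hv] at this
    by_cases h : 2 * t.val < n
    · have := good (n := n) (k := t.val) (by omega) h
      rwa [hv] at this
    · have := good (n := n) (k := n - t.val) (by omega) (by omega)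
      refine good_neg ?_
      rw [Nat.cast_sub hlt.le, hv, ZMod.natCast_self, zero_sub] at this
      exact this
  have := good_unit u.isUnit key
  rw [mul_one, hut, hu] at this
  exact this

/-! ### Small `n` -/

def chk2 : Bool := (List.range 100).all fun n => (List.range 50).all fun k =>
  Nat.ble n (2 * k) || (Nat.beq (Nat.gcd n k) 1 || ((List.range k).all fun j =>
    Nat.beq (Nat.gcd n j) 1 || (!(Nat.beq (Nat.gcd (Nat.gcd n j) k) 1) || (Nat.beq n 15 ||
      ((List.range n).any fun a =>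
        Nat.ble (FourFifths.dist (2 * a * j % (2 * n)) n + FourFifths.dist (2 * a * k % (2 * n)) n +
          2 * (4 * n / 5)) (2 * n + 1))))))

lemma chk2_true : chk2 = true := by decide +kernel

lemma small2 {n j k : ℕ} (hn : n < 100) (hjk : j < k) (hkn : 2 * k < n)
    (hg : Nat.gcd (Nat.gcd n j) k = 1) (hj : Nat.gcd n j ≠ 1) (hk : Nat.gcd n k ≠ 1)
    (h15 : n ≠ 15) :
    ∃ a i' j' : ℤ, (2 * a * j - n - 2 * n * i').natAbs + (2 * a * k - n - 2 * n * j').natAbs +
      2 * (4 * n / 5) ≤ 2 * n + 1 := by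
  have h := chk2_true
  simp only [chk2, List.all_eq_true, List.mem_range, Bool.or_eq_true, Nat.ble_eq, Nat.beq_eq,
    List.any_eq_true, Bool.not_eq_true'] at h
  have h1 := ((h n hn k (by omega)).resolve_left (by omega)).resolve_left hk j hjk
  have h2 := h1.resolve_left hj
  have h3 := (h2.resolve_left (by rw [hg]; decide)).resolve_left h15
  obtain ⟨a, -, h⟩ := h3
  refine ⟨a, (2 * a * j / (2 * n) : ℕ), (2 * a * k / (2 * n) : ℕ), ?_⟩
  have e := Nat.mod_add_div (2 * a * k) (2 * n)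
  have e' := Nat.mod_add_div (2 * a * j) (2 * n)
  have t1 : (2 * (a : ℤ) * k - n - 2 * n * (2 * a * k / (2 * n) : ℕ)) =
      (2 * a * k % (2 * n) : ℕ) - n := by
    zify at e ⊢
    linarith
  have t2 : (2 * (a : ℤ) * j - n - 2 * n * (2 * a * j / (2 * n) : ℕ)) =
      (2 * a * j % (2 * n) : ℕ) - n := by
    zify at e' ⊢
    linarith
  rw [t1, t2]
  unfold FourFifths.dist at h
  omega

lemma good2 {n j k : ℕ} (hj : 1 ≤ j) (hjn : 2 * j < n) (hk : 1 ≤ k) (hkn : 2 * k < n)
    (hg : Nat.gcd (Nat.gcd n j) k = 1)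
    (h15 : n = 15 → Nat.gcd n j = 1 ∨ Nat.gcd n k = 1) : Good n j k (4 * n / 5) := by
  have : NeZero n := ⟨by omega⟩
  have hg' : Nat.gcd (Nat.gcd n k) j = 1 := by
    rw [Nat.gcd_assoc, Nat.gcd_comm k j, ← Nat.gcd_assoc]; exact hg
  by_cases h1 : Nat.gcd n j = 1
  · exact good_coprime h1 hk hkn
  by_cases h2 : Nat.gcd n k = 1
  · exact good_swap (good_coprime h2 hj hjn)
  have h15' : n ≠ 15 := fun h => (h15 h).elim h1 h2
  by_cases h : n < 100
  · rcases Nat.lt_trichotomy j k with h3 | h3 | h3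
    · obtain ⟨a, i', j', h⟩ := small2 h h3 hkn hg h1 h2 h15'
      exact avg2 j k a i' j' _ h
    · subst h3
      exact absurd (by rwa [Nat.gcd_assoc, Nat.gcd_self] at hg) h1
    · obtain ⟨a, i', j', h⟩ := small2 h h3 hjn hg' h2 h1 h15'
      exact good_swap (avg2 k j a i' j' _ h)
  · obtain ⟨a, i', j', h⟩ := lattice2 (by omega) hg h1 h2
    exact avg2 j k a i' j' _ h

/-! ### From index sets to the graph -/

lemma of_good {n j k m : ℕ} [NeZero n] (h : Good n j k m) :
    (IG n j k).vertexCoverNum ≤ ((2 * n - m : ℕ) : ℕ∞) ∧ m ≤ (IG n j k).indepNum := by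
  obtain ⟨A, B, h1, h2, h3, h4⟩ := h
  set S : Finset (ZMod n × Bool) := A ×ˢ {false} ∪ B ×ˢ {true} with hS
  have cS : S.card = A.card + B.card := by
    rw [hS, card_union_of_disjoint (by simp [disjoint_left])]; simp
  have rel : ∀ x y, x ∈ S → y ∈ S → ¬ ((x.2 = false ∧ y.2 = false ∧ y.1 = x.1 + (j : ZMod n)) ∨
      (x.2 = false ∧ y.2 = true ∧ y.1 = x.1) ∨
      (x.2 = true ∧ y.2 = true ∧ y.1 = x.1 + (k : ZMod n))) := by
    rintro ⟨a, s⟩ ⟨b, t⟩ hx hy (⟨rfl, rfl, rfl⟩ | ⟨rfl, rfl, rfl⟩ | ⟨rfl, rfl, rfl⟩) <;>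
      simp [hS] at hx hy
    · exact h2 _ hx hy
    · exact disjoint_left.1 h1 hx hy
    · exact h3 _ hx hy
  have ind : ∀ x y, x ∈ S → y ∈ S → ¬ (IG n j k).Adj x y := by
    intro x y hx hy h
    rcases ((SimpleGraph.fromRel_adj _ _ _).1 h).2 with h | h
    · exact rel x y hx hy h
    · exact rel y x hy hx h
  constructor
  · have cov : (IG n j k).IsVertexCover (↑(Sᶜ) : Set (ZMod n × Bool)) := by
      intro x y h
      by_contra hh
      simp only [coe_compl, Set.mem_compl_iff, mem_coe, not_or, not_not] at hh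
      exact ind x y hh.1 hh.2 h
    refine cov.vertexCoverNum_le.trans ?_
    rw [Set.encard_coe_eq_coe_finsetCard, card_compl]
    simp only [Fintype.card_prod, ZMod.card, Fintype.card_bool, Nat.cast_le]
    omega
  · have : (IG n j k).IsIndepSet (S : Set (ZMod n × Bool)) := fun x hx y hy _ => ind x y hx hy
    exact (h4.trans cS.ge).trans this.card_le_indepNum

/-- The sizes of the two parts of an independent set. -/
lemma to_good {n j k : ℕ} [NeZero n] (hj : (j : ZMod n) ≠ 0) (hk : (k : ZMod n) ≠ 0)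
    (S : Finset (ZMod n × Bool)) (hS : (IG n j k).IsIndepSet (S : Set (ZMod n × Bool))) :
    ∃ A B : Finset (ZMod n), (∀ i ∈ A, i + j ∉ A) ∧ (∀ i ∈ B, i + k ∉ B) ∧
      S.card = A.card + B.card := by
  classical
  refine ⟨univ.filter fun i => (i, false) ∈ S, univ.filter fun i => (i, true) ∈ S, ?_, ?_, ?_⟩
  · intro i hi hi'
    simp only [mem_filter, mem_univ, true_and] at hi hi'
    refine hS (mem_coe.2 hi) (mem_coe.2 hi') ?_ ?_
    · simpa using hj
    · exact (SimpleGraph.fromRel_adj _ _ _).2 ⟨by simpa using hj, Or.inl (Or.inl ⟨rfl, rfl, rfl⟩)⟩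
  · intro i hi hi'
    simp only [mem_filter, mem_univ, true_and] at hi hi'
    refine hS (mem_coe.2 hi) (mem_coe.2 hi') ?_ ?_
    · simpa using hk
    · exact (SimpleGraph.fromRel_adj _ _ _).2
        ⟨by simpa using hk, Or.inl (Or.inr (Or.inr ⟨rfl, rfl, rfl⟩))⟩
  · have e : S = (univ.filter fun i => (i, false) ∈ S) ×ˢ {false} ∪
        (univ.filter fun i => (i, true) ∈ S) ×ˢ {true} := by
      ext ⟨i, b⟩
      cases b <;> simp
    conv_lhs => rw [e]
    rw [card_union_of_disjoint (by simp [disjoint_left])]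
    simp

lemma sum15 (f : ZMod 15 → ℕ) : ∑ i, f i = f 0 + f 1 + f 2 + f 3 + f 4 + f 5 + f 6 + f 7 + f 8 +
    f 9 + f 10 + f 11 + f 12 + f 13 + f 14 := by
  have hu : (univ : Finset (ZMod 15)) = {0, 1, 2, 3, 4, 5, 6, 7, 8, 9, 10, 11, 12, 13, 14} := by
    decide
  rw [hu]
  repeat rw [sum_insert (by decide)]
  rw [sum_singleton]
  ring

lemma ind15 {s : ZMod 15} {A : Finset (ZMod 15)} (h : ∀ i ∈ A, i + s ∉ A) :
    ∃ f : ZMod 15 → ℕ, (∀ i i', i' = i + s → f i + f i' ≤ 1) ∧ A.card = ∑ i, f i := by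
  classical
  refine ⟨fun i => if i ∈ A then 1 else 0, ?_, ?_⟩
  · rintro i i' rfl
    by_cases h1 : i ∈ A
    · simp [h1, h i h1]
    · simp only [h1, if_false]
      split_ifs <;> omega
  · simp

lemma six3 {A : Finset (ZMod 15)} (h : ∀ i ∈ A, i + (3 : ZMod 15) ∉ A) : A.card ≤ 6 := by
  obtain ⟨f, hf, e⟩ := ind15 h
  rw [e, sum15]
  have := hf 0 3 (by decide)
  have := hf 3 6 (by decide)
  have := hf 6 9 (by decide)
  have := hf 9 12 (by decide)
  have := hf 12 0 (by decide)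
  have := hf 1 4 (by decide)
  have := hf 4 7 (by decide)
  have := hf 7 10 (by decide)
  have := hf 10 13 (by decide)
  have := hf 13 1 (by decide)
  have := hf 2 5 (by decide)
  have := hf 5 8 (by decide)
  have := hf 8 11 (by decide)
  have := hf 11 14 (by decide)
  have := hf 14 2 (by decide)
  omega

lemma six6 {A : Finset (ZMod 15)} (h : ∀ i ∈ A, i + (6 : ZMod 15) ∉ A) : A.card ≤ 6 := by
  obtain ⟨f, hf, e⟩ := ind15 h
  rw [e, sum15]
  have := hf 0 6 (by decide)
  have := hf 6 12 (by decide)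
  have := hf 12 3 (by decide)
  have := hf 3 9 (by decide)
  have := hf 9 0 (by decide)
  have := hf 1 7 (by decide)
  have := hf 7 13 (by decide)
  have := hf 13 4 (by decide)
  have := hf 4 10 (by decide)
  have := hf 10 1 (by decide)
  have := hf 2 8 (by decide)
  have := hf 8 14 (by decide)
  have := hf 14 5 (by decide)
  have := hf 5 11 (by decide)
  have := hf 11 2 (by decide)
  omega

lemma five5 {A : Finset (ZMod 15)} (h : ∀ i ∈ A, i + (5 : ZMod 15) ∉ A) : A.card ≤ 5 := by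
  obtain ⟨f, hf, e⟩ := ind15 h
  rw [e, sum15]
  have := hf 0 5 (by decide)
  have := hf 5 10 (by decide)
  have := hf 10 0 (by decide)
  have := hf 1 6 (by decide)
  have := hf 6 11 (by decide)
  have := hf 11 1 (by decide)
  have := hf 2 7 (by decide)
  have := hf 7 12 (by decide)
  have := hf 12 2 (by decide)
  have := hf 3 8 (by decide)
  have := hf 8 13 (by decide)
  have := hf 13 3 (by decide)
  have := hf 4 9 (by decide)
  have := hf 9 14 (by decide)
  have := hf 14 4 (by decide)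
  omega

/-- The four exceptional pairs `(j, k)` for `n = 15`. -/
def Exc (j k : ℕ) : Prop :=
  (j = 3 ∧ k = 5) ∨ (j = 6 ∧ k = 5) ∨ (j = 5 ∧ k = 3) ∨ (j = 5 ∧ k = 6)

lemma upper15 {j k : ℕ} (h : Exc j k) (S : Finset (ZMod 15 × Bool))
    (hS : (IG 15 j k).IsIndepSet (S : Set (ZMod 15 × Bool))) : S.card ≤ 11 := by
  rcases h with ⟨rfl, rfl⟩ | ⟨rfl, rfl⟩ | ⟨rfl, rfl⟩ | ⟨rfl, rfl⟩
  all_goals
    obtain ⟨A, B, hA, hB, e⟩ := to_good (by decide) (by decide) S hS
    push_cast at hA hB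
  · have := six3 hA
    have := five5 hB
    omega
  · have := six6 hA
    have := five5 hB
    omega
  · have := five5 hA
    have := six3 hB
    omega
  · have := five5 hA
    have := six6 hB
    omega

lemma good15 {j k : ℕ} (h : Exc j k) : Good 15 j k 11 := by
  rcases h with ⟨rfl, rfl⟩ | ⟨rfl, rfl⟩ | ⟨rfl, rfl⟩ | ⟨rfl, rfl⟩
  · exact avg2 3 5 2 0 0 11 (by norm_num)
  · exact avg2 6 5 1 0 0 11 (by norm_num)
  · exact avg2 5 3 2 0 0 11 (by norm_num)
  · exact avg2 5 6 1 0 0 11 (by norm_num)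

lemma cover15 {j k : ℕ} (h : Exc j k) : (19 : ℕ∞) ≤ (IG 15 j k).vertexCoverNum := by
  classical
  obtain ⟨c, hc, hcov⟩ := (IG 15 j k).vertexCoverNum_exists
  rw [← hc]
  set S : Finset (ZMod 15 × Bool) := univ.filter (fun x => x ∉ c) with hS
  have hind : (IG 15 j k).IsIndepSet (S : Set (ZMod 15 × Bool)) := by
    intro x hx y hy _ hadj
    simp only [hS, coe_filter, mem_univ, true_and, Set.mem_ofPred_eq] at hx hy
    rcases hcov hadj with h | h
    · exact hx h
    · exact hy h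
  have h1 := upper15 h S hind
  have h2 : S.card + (univ.filter (fun x => x ∈ c)).card = 30 := by
    rw [hS, add_comm, card_filter_add_card_filter_not]
    simp
  have h3 : c = ((univ.filter (fun x => x ∈ c) : Finset (ZMod 15 × Bool)) :
      Set (ZMod 15 × Bool)) := by
    ext x
    simp
  rw [h3, Set.encard_coe_eq_coe_finsetCard]
  have h4 : 19 ≤ (univ.filter (fun x => x ∈ c)).card := by omega
  exact_mod_cast h4

/-- The defining relation of the I-graph. -/
def R (n j k : ℕ) (x y : ZMod n × Bool) : Prop :=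
  (x.2 = false ∧ y.2 = false ∧ y.1 = x.1 + (j : ZMod n)) ∨
      (x.2 = false ∧ y.2 = true ∧ y.1 = x.1) ∨
      (x.2 = true ∧ y.2 = true ∧ y.1 = x.1 + (k : ZMod n))

instance (j k : ℕ) (x y : ZMod 15 × Bool) : Decidable (R 15 j k x y) := by
  unfold R; infer_instance

lemma iso15 (j k : ℕ) (e : Equiv.Perm (ZMod 15 × Bool))
    (h : ∀ x y, (e x ≠ e y ∧ (R 15 3 5 (e x) (e y) ∨ R 15 3 5 (e y) (e x))) ↔
      (x ≠ y ∧ (R 15 j k x y ∨ R 15 j k y x))) : Nonempty (IG 15 j k ≃g IG 15 3 5) := by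
  refine ⟨⟨e, ?_⟩⟩
  intro x y
  unfold IG
  rw [SimpleGraph.fromRel_adj, SimpleGraph.fromRel_adj]
  exact h x y

/-- Multiplication by `8` on `ℤ/15`, with or without the exchange of the two rims. -/
def mul8 : Equiv.Perm (ZMod 15) where
  toFun i := 8 * i
  invFun i := 2 * i
  left_inv := by decide
  right_inv := by decide

def notE : Equiv.Perm Bool where
  toFun := not
  invFun := not
  left_inv := by decide
  right_inv := by decide

lemma exc_iso {j k : ℕ} (h : Exc j k) : Nonempty (IG 15 j k ≃g IG 15 3 5) := by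
  rcases h with ⟨rfl, rfl⟩ | ⟨rfl, rfl⟩ | ⟨rfl, rfl⟩ | ⟨rfl, rfl⟩
  · exact ⟨SimpleGraph.Iso.refl⟩
  · exact iso15 6 5 (mul8.prodCongr (Equiv.refl _)) (by decide +kernel)
  · exact iso15 5 3 ((Equiv.refl _).prodCongr notE) (by decide +kernel)
  · exact iso15 5 6 (mul8.prodCongr notE) (by decide +kernel)

/-- **The bound of Behsaz, Hatami and Mahmoodian for I-graphs.**  Let `1 ≤ j, k < n / 2` and
`gcd (n, j, k) = 1`.

1. If `(n, j, k)` is none of `(15, 3, 5)`, `(15, 6, 5)`, `(15, 5, 3)`, `(15, 5, 6)`, then the I-graph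
   `I(n, j, k)` satisfies `β ≤ n + ⌈n/5⌉` and `α ≥ ⌊4n/5⌋`.  (The case `j = 1` is the question.)
2. In these four cases `β = 19 = n + ⌈n/5⌉ + 1` and `α = 11 = ⌊4n/5⌋ - 1`.
3. The four exceptional graphs are isomorphic: up to isomorphism `I(15, 3, 5)` is the only exception. -/
theorem result :
    (∀ n j k : ℕ, 1 ≤ j → 2 * j < n → 1 ≤ k → 2 * k < n → Nat.gcd (Nat.gcd n j) k = 1 →
      ¬ (n = 15 ∧ Exc j k) →
      (IG n j k).vertexCoverNum ≤ ((n + (n + 4) / 5 : ℕ) : ℕ∞) ∧
        4 * n / 5 ≤ (IG n j k).indepNum) ∧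
    (∀ j k : ℕ, Exc j k → (IG 15 j k).vertexCoverNum = 19 ∧ (IG 15 j k).indepNum = 11) ∧
    ∀ j k : ℕ, Exc j k → Nonempty (IG 15 j k ≃g IG 15 3 5) := by
  refine ⟨?_, ?_, fun j k h => exc_iso h⟩
  · intro n j k hj hjn hk hkn hg hex
    have : NeZero n := ⟨by omega⟩
    have h15 : n = 15 → Nat.gcd n j = 1 ∨ Nat.gcd n k = 1 := by
      rintro rfl
      have hj7 : j ≤ 7 := by omega
      have hk7 : k ≤ 7 := by omega
      unfold Exc at hex
      interval_cases j <;> interval_cases k <;> simp_all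
    have h := of_good (good2 hj hjn hk hkn hg h15)
    refine ⟨h.1.trans ?_, h.2⟩
    rw [Nat.cast_le]
    omega
  · intro j k h
    have h1 := of_good (good15 h)
    refine ⟨le_antisymm (by simpa using h1.1) (cover15 h), le_antisymm ?_ h1.2⟩
    obtain ⟨S, hS⟩ := (IG 15 j k).exists_isNIndepSet_indepNum
    rw [← hS.card_eq]
    exact upper15 h S hS.isIndepSet

end Pool.Agent.Results.MP_86031e_co.ConnectedIGraphs
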