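import Pool.Agent.Results.MP_86031e_co.ConnectedIGraphs

/-!
# The independence number of the I-graphs `I(n,j,k)` up to a constant factor in the deficiency

Let `m` be the length of a shortest odd relation `p k ≡ q j (mod n)`
(`p - q` odd, length `max |p| |q|`). Then `n / (2 m + 2) ≤ n - α(I(n,j,k)) ≤ 3 n / (2 m)`.
-/

set_option autoImplicit false

namespace Pool.Agent.Results.MP_86031e_co.IGraphsTwoSided

open Finset FourFifths ConnectedIGraphs

/-- There are integers `p, q` with `|p|, |q| ≤ m`, `p - q` odd and `p k ≡ q j (mod n)`. -/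
def OddRel (n j k m : ℕ) : Prop :=
  ∃ p q : ℤ, (n : ℤ) ∣ p * k - q * j ∧ Odd (p - q) ∧ p.natAbs ≤ m ∧ q.natAbs ≤ m

lemma OddRel.mono {n j k m m' : ℕ} (h : OddRel n j k m) (hm : m ≤ m') : OddRel n j k m' := by
  obtain ⟨p, q, h1, h2, h3, h4⟩ := h
  exact ⟨p, q, h1, h2, h3.trans hm, h4.trans hm⟩

lemma latt {n j k m : ℕ} (hn : 0 < n) (hg : Nat.gcd (Nat.gcd n j) k = 1)
    (hno : ¬ OddRel n j k m) :
    ∃ a i' j' : ℤ, (m + 1) * ((2 * a * j - n - 2 * n * i').natAbs +
      (2 * a * k - n - 2 * n * j').natAbs) ≤ 3 * n := by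
  classical
  by_cases hbip : n % 2 = 0 ∧ j % 2 = 1 ∧ k % 2 = 1
  · obtain ⟨h1, h2', h2⟩ := hbip
    obtain ⟨n', hn'⟩ : ∃ n', n = 2 * n' := ⟨n / 2, by omega⟩
    obtain ⟨k', hk'⟩ : ∃ k', k = 2 * k' + 1 := ⟨k / 2, by omega⟩
    obtain ⟨l', hl'⟩ : ∃ l', j = 2 * l' + 1 := ⟨j / 2, by omega⟩
    refine ⟨n', l', k', ?_⟩
    have e1 : (2 * (n' : ℤ) * j - n - 2 * n * l') = 0 := by rw [hn', hl']; push_cast; ring
    have e2 : (2 * (n' : ℤ) * k - n - 2 * n * k') = 0 := by rw [hn', hk']; push_cast; ring
    rw [e1, e2]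
    simp
  have ex : ∃ M, Short2 n j k M := ⟨_, thue2 hn j k⟩
  set M := Nat.find ex with hM
  have hMn : M * M ≤ n :=
    (Nat.mul_le_mul (Nat.find_le (thue2 hn j k)) (Nat.find_le (thue2 hn j k))).trans
      (Nat.sqrt_le n)
  obtain ⟨p, q, s, e, h0, hp, hq⟩ := Nat.find_spec ex
  rw [← hM] at hp hq
  have M1 : 1 ≤ M := by omega
  have hmax : p.natAbs = M ∨ q.natAbs = M := by
    by_contra hh
    exact Nat.find_min ex (show M - 1 < M by omega) ⟨p, q, s, e, h0, by omega, by omega⟩
  obtain ⟨a0, j0, i0, bez⟩ : ∃ a0 j0 i0 : ℤ, a0 * s + p * j0 - q * i0 = 1 := by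
    set g := Int.gcd p q with hg
    set d := Int.gcd s g with hd
    have g0 : 0 < g := Int.gcd_pos_iff.2 h0
    have d0 : 0 < d := Int.gcd_pos_iff.2 (Or.inr (by omega))
    have d1 : d = 1 := by
      by_contra hh
      obtain ⟨s', hs'⟩ : (d : ℤ) ∣ s := Int.gcd_dvd_left _ _
      have dg : (d : ℤ) ∣ g := Int.gcd_dvd_right _ _
      obtain ⟨p', hp'⟩ : (d : ℤ) ∣ p := dg.trans (Int.gcd_dvd_left _ _)
      obtain ⟨q', hq'⟩ : (d : ℤ) ∣ q := dg.trans (Int.gcd_dvd_right _ _)
      have k1 : p.natAbs = d * p'.natAbs := by rw [hp', Int.natAbs_mul]; simp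
      have k2 : q.natAbs = d * q'.natAbs := by rw [hq', Int.natAbs_mul]; simp
      have d2 : 2 ≤ d := by omega
      refine Nat.find_min ex (show M / 2 < M by omega) ⟨p', q', s', ?_, ?_, ?_, ?_⟩
      · refine mul_left_cancel₀ (show (d : ℤ) ≠ 0 by omega) ?_
        rw [hs', hp', hq'] at e
        linear_combination e
      · by_contra hh
        push Not at hh
        rw [hp', hq', hh.1, hh.2] at h0
        simp at h0
      · have := Nat.mul_le_mul_right p'.natAbs d2
        omega
      · have := Nat.mul_le_mul_right q'.natAbs d2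
        omega
    have b1 := Int.gcd_eq_gcd_ab p q
    have b2 := Int.gcd_eq_gcd_ab s g
    rw [← hd, d1] at b2
    rw [← hg] at b1
    refine ⟨Int.gcdA s g, Int.gcdA p q * Int.gcdB s g, -(Int.gcdB p q * Int.gcdB s g), ?_⟩
    push_cast at b2
    linear_combination -b2 - Int.gcdB s g * b1
  obtain ⟨β, ε, hε, hβ⟩ : ∃ (β : ℤ) (ε : ℕ), ε ≤ 1 ∧ 2 * β - (p - q) = ε :=
    ⟨(p - q + 1) / 2, ((p - q) % 2).toNat, by omega, by omega⟩
  -- a Bezout relation for `n`, `j`, `k`
  obtain ⟨u, v, w, huv⟩ : ∃ u v w : ℤ, u * j + v * k + w * n = 1 := by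
    obtain ⟨x1, y1, b1⟩ : ∃ x y : ℤ, ((Nat.gcd n j : ℕ) : ℤ) = n * x + j * y :=
      ⟨_, _, Nat.gcd_eq_gcd_ab n j⟩
    obtain ⟨x2, y2, b2⟩ : ∃ x y : ℤ, (((Nat.gcd (Nat.gcd n j) k : ℕ)) : ℤ) =
        ((Nat.gcd n j : ℕ) : ℤ) * x + k * y := ⟨_, _, Nat.gcd_eq_gcd_ab _ k⟩
    rw [hg, b1] at b2
    push_cast at b2
    exact ⟨y1 * x2, y2, x1 * x2, by linear_combination -b2⟩
  -- `2 (m + 1) M ≤ 3 n` if the shortest vector is even, `m + 1 ≤ M` if it is odd
  have key : (ε = 1 ∧ m + 1 ≤ M) ∨ (ε = 0 ∧ 2 * ((m + 1) * M) ≤ 3 * n) := by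
    rcases (by omega : ε = 1 ∨ ε = 0) with hε1 | hε0
    · left
      refine ⟨hε1, ?_⟩
      by_contra hc
      refine hno (OddRel.mono (m := M) ⟨p, q, ⟨s, e⟩, ?_, hp, hq⟩ (by omega))
      rw [Int.odd_iff]
      omega
    · right
      refine ⟨hε0, ?_⟩
      -- the second basis vector
      set p2 : ℤ := a0 * j + n * i0 with hp2
      set q2 : ℤ := a0 * k + n * j0 with hq2
      have det : p * q2 - q * p2 = n := by
        rw [hp2, hq2]
        linear_combination a0 * e + n * bez
      have rel2 : p2 * k - q2 * j = n * (i0 * k - j0 * j) := by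
        rw [hp2, hq2]; ring
      have heven : (p - q) % 2 = 0 := by omega
      have hodd2 : Odd (p2 - q2) := by
        -- an odd vector
        obtain ⟨x, y, z, hxy, hodd⟩ : ∃ x y z : ℤ, x * k - y * j = n * z ∧ Odd (x - y) := by
          rcases (by omega : n % 2 = 1 ∨ n % 2 = 0) with h | h
          · refine ⟨n, 0, k, by ring, ?_⟩
            rw [Int.odd_iff]; omega
          · refine ⟨j, k, 0, by ring, ?_⟩
            have h2 : ¬ (j % 2 = 0 ∧ k % 2 = 0) := by
              rintro ⟨h1, h2⟩
              have d1 := Nat.dvd_gcd (Nat.dvd_gcd (Nat.dvd_of_mod_eq_zero h)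
                (Nat.dvd_of_mod_eq_zero h1)) (Nat.dvd_of_mod_eq_zero h2)
              rw [hg] at d1
              omega
            rw [Int.odd_iff]; omega
        -- coordinates
        have c1 : (n : ℤ) ≠ 0 := by omega
        obtain ⟨F, f1⟩ : ∃ F : ℤ, p * y - q * x = n * F :=
          ⟨u * (s * x - p * z) + v * (s * y - q * z) + w * (p * y - q * x), by
            linear_combination -(p * y - q * x) * huv + u * (x * e - p * hxy) +
              v * (y * e - q * hxy)⟩
        obtain ⟨G, f2⟩ : ∃ G : ℤ, x * q2 - y * p2 = n * G :=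
          ⟨a0 * z + x * j0 - y * i0, by rw [hp2, hq2]; linear_combination a0 * hxy⟩
        have g1 : x = G * p + F * p2 := by
          refine mul_left_cancel₀ c1 ?_
          linear_combination -x * det + p * f2 + p2 * f1
        have g2 : y = G * q + F * q2 := by
          refine mul_left_cancel₀ c1 ?_
          linear_combination -y * det + q * f2 + q2 * f1
        by_contra hc
        rw [Int.not_odd_iff_even] at hc
        have hev : Even (p - q) := Int.even_iff.2 heven
        have : x - y = G * (p - q) + F * (p2 - q2) := by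
          linear_combination g1 - g2
        have h5 : Even (x - y) := by
          rw [this]
          exact (hev.mul_left _).add (hc.mul_left _)
        exact (Int.not_even_iff_odd.2 hodd) h5
      -- reduce the second vector
      have fin : ∀ α : ℤ, (2 * (α * p + p2).natAbs ≤ M ∧ p.natAbs = M) ∨
          (2 * (α * q + q2).natAbs ≤ M ∧ q.natAbs = M) →
          2 * ((m + 1) * M) ≤ 3 * n := by
        intro α hor
        set x := α * p + p2 with hx
        set y := α * q + q2 with hy
        have det' : p * y - q * x = n := by rw [hx, hy]; linear_combination det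
        have hodd' : Odd (x - y) := by
          have : x - y = α * (p - q) + (p2 - q2) := by rw [hx, hy]; ring
          rw [this]
          exact ((Int.even_iff.2 heven).mul_left _).add_odd hodd2
        have hrel : (n : ℤ) ∣ x * k - y * j :=
          ⟨α * s + (i0 * k - j0 * j), by rw [hx, hy]; linear_combination α * e + rel2⟩
        have hmm : m + 1 ≤ x.natAbs ∨ m + 1 ≤ y.natAbs := by
          by_contra hc
          exact hno ⟨x, y, hrel, hodd', by omega, by omega⟩
        rcases hor with ⟨hxM, hpM'⟩ | ⟨hyM, hqM'⟩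
        · have e1 : p * y = n + q * x := by linarith
          have e2 := Int.natAbs_add_le (n : ℤ) (q * x)
          rw [← e1, Int.natAbs_mul, Int.natAbs_mul, hpM'] at e2
          simp only [Int.natAbs_natCast] at e2
          have e3 := Nat.mul_le_mul hq (le_refl x.natAbs)
          have e4 := Nat.mul_le_mul (le_refl M) hxM
          have e5 : M * (2 * x.natAbs) = 2 * (M * x.natAbs) := by ring
          rcases hmm with hh | hh
          · have e6 := Nat.mul_le_mul hh (le_refl M)
            have e7 : x.natAbs * M = M * x.natAbs := by ring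
            omega
          · have e6 := Nat.mul_le_mul hh (le_refl M)
            have e7 : y.natAbs * M = M * y.natAbs := by ring
            omega
        · have e1 : q * x = p * y - n := by linarith
          have e2 := Int.natAbs_sub_le (p * y) (n : ℤ)
          rw [← e1, Int.natAbs_mul, Int.natAbs_mul, hqM'] at e2
          simp only [Int.natAbs_natCast] at e2
          have e3 := Nat.mul_le_mul hp (le_refl y.natAbs)
          have e4 := Nat.mul_le_mul (le_refl M) hyM
          have e5 : M * (2 * y.natAbs) = 2 * (M * y.natAbs) := by ring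
          rcases hmm with hh | hh
          · have e6 := Nat.mul_le_mul hh (le_refl M)
            have e7 : x.natAbs * M = M * x.natAbs := by ring
            omega
          · have e6 := Nat.mul_le_mul hh (le_refl M)
            have e7 : y.natAbs * M = M * y.natAbs := by ring
            omega
      rcases hmax with h | h
      · obtain ⟨α, hα⟩ := near p (2 * p2) (by omega)
        refine fin α (Or.inl ⟨?_, h⟩)
        rw [← h]
        refine le_trans (le_of_eq ?_) hα
        rw [show 2 * α * p + 2 * p2 = 2 * (α * p + p2) by ring, Int.natAbs_mul]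
        rfl
      · obtain ⟨α, hα⟩ := near q (2 * q2) (by omega)
        refine fin α (Or.inr ⟨?_, h⟩)
        rw [← h]
        refine le_trans (le_of_eq ?_) hα
        rw [show 2 * α * q + 2 * q2 = 2 * (α * q + q2) by ring, Int.natAbs_mul]
        rfl
  have gen : ∀ α : ℤ, p * (2 * α * q + (2 * β * (a0 * k + n * j0) - n))
      - q * (2 * α * p + (2 * β * (a0 * j + n * i0) - n)) = n * ε := by
    intro α
    linear_combination 2 * β * a0 * e + 2 * β * n * bez + n * hβ
  have out : ∀ α : ℤ, (m + 1) * ((2 * α * p + (2 * β * (a0 * j + n * i0) - n)).natAbs +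
      (2 * α * q + (2 * β * (a0 * k + n * j0) - n)).natAbs) ≤ 3 * n →
      ∃ a i' j' : ℤ, (m + 1) * ((2 * a * j - n - 2 * n * i').natAbs +
        (2 * a * k - n - 2 * n * j').natAbs) ≤ 3 * n := by
    intro α h
    refine ⟨α * (u * p + v * q) + β * a0, α * (-(v * s) - w * p) - β * i0,
      α * (u * s - w * q) - β * j0, ?_⟩
    convert h using 4
    · linear_combination 2 * α * p * huv - 2 * α * v * e
    · linear_combination 2 * α * q * huv + 2 * α * u * e
  -- the final estimate
  have est : ∀ B C : ℕ, B ≤ M → M * C ≤ n * ε + M * M → (m + 1) * (B + C) ≤ 3 * n := by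
    intro B C hB hC
    rcases key with ⟨h1, h2⟩ | ⟨h1, h2⟩
    · rw [h1] at hC
      calc (m + 1) * (B + C) ≤ M * (B + C) := Nat.mul_le_mul_right _ h2
        _ = M * B + M * C := by ring
        _ ≤ M * M + (n * 1 + M * M) := Nat.add_le_add (Nat.mul_le_mul_left _ hB) hC
        _ ≤ 3 * n := by omega
    · rw [h1] at hC
      have hCM : C ≤ M := Nat.le_of_mul_le_mul_left (by omega) (show 0 < M by omega)
      calc (m + 1) * (B + C) ≤ (m + 1) * (M + M) := Nat.mul_le_mul_left _ (by omega)
        _ = 2 * ((m + 1) * M) := by ring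
        _ ≤ 3 * n := h2
  rcases hmax with h | h
  · obtain ⟨α, hα⟩ := near p (2 * β * (a0 * j + n * i0) - n) (by omega)
    refine out α (est _ _ (by omega) ?_)
    have g := gen α
    generalize 2 * α * p + (2 * β * (a0 * j + n * i0) - n) = b at *
    generalize 2 * α * q + (2 * β * (a0 * k + n * j0) - n) = c at *
    have e1 : p * c = n * ε + q * b := by linarith
    have e2 := Int.natAbs_add_le ((n : ℤ) * ε) (q * b)
    rw [← e1, Int.natAbs_mul, Int.natAbs_mul, Int.natAbs_mul, h] at e2
    simp only [Int.natAbs_natCast] at e2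
    have := Nat.mul_le_mul hq (hα.trans hp)
    omega
  · obtain ⟨α, hα⟩ := near q (2 * β * (a0 * k + n * j0) - n) (by omega)
    refine out α ?_
    rw [add_comm (Int.natAbs _)]
    refine est _ _ (by omega) ?_
    have g := gen α
    generalize 2 * α * p + (2 * β * (a0 * j + n * i0) - n) = b at *
    generalize 2 * α * q + (2 * β * (a0 * k + n * j0) - n) = c at *
    have e1 : q * b = p * c - n * ε := by linarith
    have e2 := Int.natAbs_sub_le (p * c) ((n : ℤ) * ε)
    rw [← e1, Int.natAbs_mul, Int.natAbs_mul, Int.natAbs_mul, h] at e2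
    simp only [Int.natAbs_natCast] at e2
    have := Nat.mul_le_mul hp (hα.trans hq)
    omega

/-! ### The lower bound for the deficiency -/

lemma cyc (l : ℕ) (hodd : l % 2 = 1) (x : ℕ → Prop) [DecidablePred x]
    (h : ∀ t, t + 1 < l → ¬ (x t ∧ x (t + 1))) (hw : ¬ (x (l - 1) ∧ x 0)) :
    2 * ((range l).filter x).card + 1 ≤ l := by
  set T := (range l).filter x with hT
  set g : ℕ → ℕ := fun t => if t + 1 < l then t + 1 else 0 with hg
  have hinj : Set.InjOn g (T : Set ℕ) := by
    intro a ha b hb hab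
    have ha' := mem_range.1 (mem_filter.1 (mem_coe.1 ha)).1
    have hb' := mem_range.1 (mem_filter.1 (mem_coe.1 hb)).1
    simp only [hg] at hab
    split_ifs at hab <;> omega
  have hdis : Disjoint T (T.image g) := by
    rw [disjoint_left]
    intro a ha hb
    obtain ⟨b, hbT, rfl⟩ := mem_image.1 hb
    have hxb := (mem_filter.1 hbT).2
    have hbl := mem_range.1 (mem_filter.1 hbT).1
    have hxa := (mem_filter.1 ha).2
    simp only [hg] at hxa
    split_ifs at hxa with hc
    · exact h b hc ⟨hxb, hxa⟩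
    · have : b = l - 1 := by omega
      rw [this] at hxb
      exact hw ⟨hxb, hxa⟩
  have hsub : T ∪ T.image g ⊆ range l := by
    intro a ha
    rcases mem_union.1 ha with ha | ha
    · exact (mem_filter.1 ha).1
    · obtain ⟨b, hb, rfl⟩ := mem_image.1 ha
      have hbl := mem_range.1 (mem_filter.1 hb).1
      simp only [hg, mem_range]
      split_ifs <;> omega
  have := card_le_card hsub
  rw [card_union_of_disjoint hdis, card_image_of_injOn hinj, card_range] at this
  omega

lemma shift_card {n : ℕ} [NeZero n] (A : Finset (ZMod n)) (c : ZMod n) :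
    (univ.filter fun i : ZMod n => i + c ∈ A).card = A.card := by
  refine card_bij (fun i _ => i + c) ?_ ?_ ?_
  · intro i hi
    exact (mem_filter.1 hi).2
  · intro i _ j _ hij
    exact add_right_cancel hij
  · intro b hb
    exact ⟨b - c, by simpa using hb, by ring⟩

lemma half_card {n : ℕ} [NeZero n] (A : Finset (ZMod n)) (c : ZMod n)
    (h : ∀ i ∈ A, i + c ∉ A) : 2 * A.card ≤ n := by
  have h1 : Disjoint A (univ.filter fun i : ZMod n => i + c ∈ A) := by
    rw [disjoint_left]
    intro i hi hi'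
    exact h i hi (mem_filter.1 hi').2
  have h2 := card_le_card (subset_univ (A ∪ univ.filter fun i : ZMod n => i + c ∈ A))
  rw [card_union_of_disjoint h1, shift_card, card_univ, ZMod.card] at h2
  omega

lemma upper {n j k m : ℕ} [NeZero n] (A B : Finset (ZMod n)) (hAB : Disjoint A B)
    (hA : ∀ i ∈ A, i + (j : ZMod n) ∉ A) (hB : ∀ i ∈ B, i + (k : ZMod n) ∉ B)
    (h : OddRel n j k m) :
    n + 2 * (m + 1) * (A.card + B.card) ≤ 2 * (m + 1) * n := by
  classical
  obtain ⟨p, q, hrel, hodd, hp, hq⟩ := h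
  set P := p.natAbs with hP
  set Q := q.natAbs with hQ
  have hpar : (P + Q + 2) % 2 = 1 := by
    rw [Int.odd_iff] at hodd
    omega
  have hcast : ((p * k : ℤ) : ZMod n) = ((q * j : ℤ) : ZMod n) := by
    have := (ZMod.intCast_eq_intCast_iff_dvd_sub (q * j) (p * k) n).2 hrel
    exact this.symm
  let wv : ℕ → ZMod n := fun t => ((p.sign * t * k : ℤ) : ZMod n)
  let wu : ℕ → ZMod n := fun r => (((q - q.sign * r) * j : ℤ) : ZMod n)
  let x : ZMod n → ℕ → Prop := fun i t => if t ≤ P then i + wv t ∈ B else i + wu (t - P - 1) ∈ A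
  have hwv0 : wv 0 = 0 := by simp [wv]
  have hwvP : wv P = wu 0 := by
    simp only [wv, wu, Nat.cast_zero, mul_zero, sub_zero]
    rw [← hcast, hP, Int.sign_mul_natAbs]
  have hwuQ : wu Q = 0 := by
    simp only [wu]
    rw [hQ, Int.sign_mul_natAbs, sub_self, zero_mul, Int.cast_zero]
  have hwvs : ∀ t, t + 1 ≤ P → wv (t + 1) = wv t + k ∨ wv t = wv (t + 1) + k := by
    intro t ht
    have hp0 : p ≠ 0 := by rintro rfl; simp at hP; omega
    rcases lt_or_gt_of_ne hp0 with h0 | h0
    · right
      simp only [wv, Int.sign_eq_neg_one_of_neg h0]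
      push_cast
      ring
    · left
      simp only [wv, Int.sign_eq_one_of_pos h0]
      push_cast
      ring
  have hwus : ∀ r, r + 1 ≤ Q → wu (r + 1) = wu r + j ∨ wu r = wu (r + 1) + j := by
    intro r hr
    have hq0 : q ≠ 0 := by rintro rfl; simp at hQ; omega
    rcases lt_or_gt_of_ne hq0 with h0 | h0
    · left
      simp only [wu, Int.sign_eq_neg_one_of_neg h0]
      push_cast
      ring
    · right
      simp only [wu, Int.sign_eq_one_of_pos h0]
      push_cast
      ring
  have hcyc : ∀ i : ZMod n, 2 * ((range (P + Q + 2)).filter (x i)).card + 1 ≤ P + Q + 2 := by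
    intro i
    refine cyc _ hpar (x i) ?_ ?_
    · rintro t ht ⟨h1, h2⟩
      simp only [x] at h1 h2
      by_cases c1 : t + 1 ≤ P
      · rw [if_pos (by omega)] at h1
        rw [if_pos c1] at h2
        rcases hwvs t c1 with h3 | h3
        · rw [h3, ← add_assoc] at h2
          exact hB _ h1 h2
        · rw [h3, ← add_assoc] at h1
          exact hB _ h2 h1
      · rw [if_neg c1] at h2
        by_cases c2 : t ≤ P
        · have : t = P := by omega
          subst this
          rw [if_pos le_rfl, hwvP] at h1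
          rw [show P + 1 - P - 1 = 0 by omega] at h2
          exact disjoint_left.1 hAB h2 h1
        · rw [if_neg c2] at h1
          obtain ⟨r, rfl⟩ : ∃ r, t = P + 1 + r := ⟨t - P - 1, by omega⟩
          rw [show P + 1 + r - P - 1 = r by omega] at h1
          rw [show P + 1 + r + 1 - P - 1 = r + 1 by omega] at h2
          rcases hwus r (by omega) with h3 | h3
          · rw [h3, ← add_assoc] at h2
            exact hA _ h1 h2
          · rw [h3, ← add_assoc] at h1
            exact hA _ h2 h1
    · rintro ⟨h1, h2⟩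
      simp only [x] at h1 h2
      rw [if_pos (Nat.zero_le _), hwv0] at h2
      rw [if_neg (by omega), show P + Q + 2 - 1 - P - 1 = Q by omega, hwuQ] at h1
      exact disjoint_left.1 hAB h1 h2
  have hsum : ∑ i : ZMod n, ((range (P + Q + 2)).filter (x i)).card =
      (P + 1) * B.card + (Q + 1) * A.card := by
    simp only [card_filter]
    rw [sum_comm]
    have h1 : ∀ t ∈ range (P + Q + 2), (∑ i : ZMod n, if x i t then 1 else 0) =
        if t ≤ P then B.card else A.card := by
      intro t _
      rw [← card_filter]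
      by_cases ht : t ≤ P
      · rw [if_pos ht, ← shift_card B (wv t)]
        congr 1
        refine filter_congr fun i _ => ?_
        simp only [x, if_pos ht]
      · rw [if_neg ht, ← shift_card A (wu (t - P - 1))]
        congr 1
        refine filter_congr fun i _ => ?_
        simp only [x, if_neg ht]
    rw [sum_congr rfl h1, show P + Q + 2 = (P + 1) + (Q + 1) by ring, sum_range_add]
    congr 1
    · rw [sum_congr rfl (g := fun _ => B.card) (fun t ht => if_pos (by
        have := mem_range.1 ht; omega))]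
      simp
    · rw [sum_congr rfl (g := fun _ => A.card) (fun t _ => if_neg (by omega))]
      simp
  have htot : 2 * ((P + 1) * B.card + (Q + 1) * A.card) + n ≤ n * (P + Q + 2) := by
    rw [← hsum, mul_sum]
    have h1 : ∑ i : ZMod n, (2 * ((range (P + Q + 2)).filter (x i)).card + 1) ≤
        ∑ _i : ZMod n, (P + Q + 2) := sum_le_sum fun i _ => hcyc i
    rw [sum_add_distrib] at h1
    simp only [sum_const, card_univ, ZMod.card, smul_eq_mul, mul_one] at h1
    exact h1
  have hA2 := half_card A j hA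
  have hB2 := half_card B k hB
  obtain ⟨u, hu⟩ : ∃ u, m = P + u := ⟨m - P, by omega⟩
  obtain ⟨v, hv⟩ : ∃ v, m = Q + v := ⟨m - Q, by omega⟩
  have hu2 := Nat.mul_le_mul_left u hB2
  have hv2 := Nat.mul_le_mul_left v hA2
  have e1 : 2 * (m + 1) * (A.card + B.card) =
      2 * ((P + 1) * B.card + (Q + 1) * A.card) + u * (2 * B.card) + v * (2 * A.card) := by
    have : 2 * (m + 1) * (A.card + B.card) = 2 * (m + 1) * A.card + 2 * (m + 1) * B.card := by
      ring
    rw [this]
    nth_rewrite 1 [hv]
    rw [hu]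
    ring
  have e2 : 2 * (m + 1) * n = n * (P + Q + 2) + u * n + v * n := by
    have : 2 * (m + 1) * n = (m + 1) * n + (m + 1) * n := by ring
    rw [this]
    nth_rewrite 1 [hv]
    rw [hu]
    ring
  rw [e1, e2]
  omega


/-- Copies: `I(d n', d j', d k')` consists of `d` copies of `I(n', j', k')`. -/
lemma lift {n' d j' k' m : ℕ} (hn : 0 < n') (hd : 0 < d) (h : Good n' j' k' m) :
    Good (d * n') ((d * j' : ℕ) : ZMod (d * n')) ((d * k' : ℕ) : ZMod (d * n')) (d * m) := by
  classical
  obtain ⟨A, B, h1, h2, h3, h4⟩ := h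
  have hN : NeZero (d * n') := ⟨by positivity⟩
  have hN' : NeZero n' := ⟨by omega⟩
  -- the position inside the copy
  let π : ZMod (d * n') → ZMod n' := fun i => ((i.val / d : ℕ) : ZMod n')
  have hπ : ∀ (i : ZMod (d * n')) (s : ℕ), π (i + ((d * s : ℕ) : ZMod (d * n'))) = π i + s := by
    intro i s
    simp only [π]
    rw [ZMod.val_add, ZMod.val_natCast, Nat.add_mod_mod, ← Nat.cast_add]
    rw [Nat.mod_mul_right_div_self, ZMod.natCast_mod, Nat.add_mul_div_left _ _ hd]
  have hcard : ∀ C : Finset (ZMod n'), (univ.filter fun i : ZMod (d * n') => π i ∈ C).card =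
      d * C.card := by
    intro C
    have : (univ.filter fun i : ZMod (d * n') => π i ∈ C).card = (C ×ˢ range d).card := by
      refine card_bij (fun i _ => (π i, i.val % d)) ?_ ?_ ?_
      · intro i hi
        exact mem_product.2 ⟨(mem_filter.1 hi).2, mem_range.2 (Nat.mod_lt _ hd)⟩
      · intro i _ i' _ he
        have e1 := (Prod.mk.injEq _ _ _ _ ▸ he).1
        have e2 := (Prod.mk.injEq _ _ _ _ ▸ he).2
        apply ZMod.val_injective
        have l1 : i.val / d < n' := Nat.div_lt_of_lt_mul (ZMod.val_lt i)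
        have l2 : i'.val / d < n' := Nat.div_lt_of_lt_mul (ZMod.val_lt i')
        have e3 : i.val / d = i'.val / d := by
          have := congrArg ZMod.val e1
          simp only [π] at this
          rwa [ZMod.val_cast_of_lt l1, ZMod.val_cast_of_lt l2] at this
        rw [← Nat.div_add_mod i.val d, ← Nat.div_add_mod i'.val d, e3, e2]
      · rintro ⟨c, r⟩ hc
        obtain ⟨hc1, hr⟩ := mem_product.1 hc
        have hr' := mem_range.1 hr
        simp only at hr' hc1
        have hlt : d * c.val + r < d * n' := by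
          have := ZMod.val_lt c
          calc d * c.val + r < d * c.val + d := by omega
            _ = d * (c.val + 1) := by ring
            _ ≤ d * n' := Nat.mul_le_mul_left _ this
        have hv : (((d * c.val + r : ℕ) : ZMod (d * n'))).val = d * c.val + r :=
          ZMod.val_cast_of_lt hlt
        have hp : π ((d * c.val + r : ℕ) : ZMod (d * n')) = c := by
          simp only [π]
          rw [hv, Nat.mul_add_div hd, Nat.div_eq_of_lt hr', add_zero, ZMod.natCast_zmod_val]
        refine ⟨((d * c.val + r : ℕ) : ZMod (d * n')), ?_, ?_⟩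
        · refine mem_filter.2 ⟨mem_univ _, ?_⟩
          rw [hp]
          exact hc1
        · rw [hp, hv, Nat.mul_add_mod, Nat.mod_eq_of_lt hr']
    rw [this, card_product, card_range, mul_comm]
  refine ⟨univ.filter fun i => π i ∈ A, univ.filter fun i => π i ∈ B, ?_, ?_, ?_, ?_⟩
  · rw [disjoint_left]
    intro i hi hi'
    exact disjoint_left.1 h1 (mem_filter.1 hi).2 (mem_filter.1 hi').2
  · intro i hi hi'
    have a := (mem_filter.1 hi).2
    have b := (mem_filter.1 hi').2
    rw [hπ] at b
    exact h2 _ a b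
  · intro i hi hi'
    have a := (mem_filter.1 hi).2
    have b := (mem_filter.1 hi').2
    rw [hπ] at b
    exact h3 _ a b
  · rw [hcard, hcard, ← Nat.mul_add]
    exact Nat.mul_le_mul_left _ h4

/-- The upper bound for the deficiency, with no condition on the greatest common divisor. -/
lemma low_all {n' d j' k' m : ℕ} (hn : 0 < n') (hd : 0 < d)
    (hg : Nat.gcd (Nat.gcd n' j') k' = 1) (h : ¬ OddRel (d * n') (d * j') (d * k') m) :
    2 * ((m : ℤ) + 1) * (((d * n' : ℕ) : ℤ) - (IG (d * n') (d * j') (d * k')).indepNum) ≤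
      3 * ((d * n' : ℕ) : ℤ) := by
  have hN : NeZero (d * n') := ⟨by positivity⟩
  have hN' : NeZero n' := ⟨by omega⟩
  have h' : ¬ OddRel n' j' k' m := by
    rintro ⟨p, q, ⟨s, hs⟩, h2, h3, h4⟩
    refine h ⟨p, q, ⟨s, ?_⟩, h2, h3, h4⟩
    push_cast
    linear_combination (d : ℤ) * hs
  obtain ⟨a, i', l', hD⟩ := latt hn hg h'
  set D := (2 * a * j' - n' - 2 * n' * i').natAbs + (2 * a * k' - n' - 2 * n' * l').natAbs with hDd
  obtain ⟨m', hm'⟩ : ∃ m' : ℕ, m' = (2 * n' + 1 - D) / 2 := ⟨_, rfl⟩
  have hgood : d * m' ≤ (IG (d * n') (d * j') (d * k')).indepNum := by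
    by_cases hc : D ≤ 2 * n' + 1
    · exact (of_good (lift hn hd (avg2 j' k' a i' l' m' (by omega)))).2
    · have : m' = 0 := by omega
      rw [this, mul_zero]
      exact Nat.zero_le _
  have h1 : 2 * ((n' : ℤ) - m') ≤ D := by omega
  have h2 : (((d * n' : ℕ) : ℤ) - (IG (d * n') (d * j') (d * k')).indepNum) ≤
      d * ((n' : ℤ) - m') := by
    zify at hgood
    push_cast
    linarith
  have h3 : ((m : ℤ) + 1) * D ≤ 3 * n' := by exact_mod_cast hD
  have h4 : (0 : ℤ) ≤ (m : ℤ) + 1 := by positivity
  have h5 : (0 : ℤ) ≤ d := by positivity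
  calc 2 * ((m : ℤ) + 1) * (((d * n' : ℕ) : ℤ) - (IG (d * n') (d * j') (d * k')).indepNum)
      ≤ 2 * ((m : ℤ) + 1) * (d * ((n' : ℤ) - m')) := mul_le_mul_of_nonneg_left h2 (by positivity)
    _ = d * (((m : ℤ) + 1) * (2 * ((n' : ℤ) - m'))) := by ring
    _ ≤ d * (((m : ℤ) + 1) * D) :=
        mul_le_mul_of_nonneg_left (mul_le_mul_of_nonneg_left h1 h4) h5
    _ ≤ d * (3 * n') := mul_le_mul_of_nonneg_left h3 h5
    _ = 3 * ((d * n' : ℕ) : ℤ) := by push_cast; ring

/-- Let `1 ≤ j, k < n / 2` and let `m` be a natural number.  If there is an odd relation of length at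
most `m`, then the deficiency `n - α(I(n,j,k))` is at least `n / (2 (m + 1))`; if there is none, it is
at most `3 n / (2 (m + 1))`.  Nothing is assumed on `gcd (n, j, k)`. -/
theorem result (n j k : ℕ) (hj : 1 ≤ j) (hjn : 2 * j < n) (hk : 1 ≤ k) (hkn : 2 * k < n) :
    (IG n j k).indepNum ≤ n ∧
    ∀ m : ℕ,
      (OddRel n j k m → (n : ℤ) ≤ 2 * (m + 1) * ((n : ℤ) - (IG n j k).indepNum)) ∧
      (¬ OddRel n j k m → 2 * (m + 1) * ((n : ℤ) - (IG n j k).indepNum) ≤ 3 * n) := by
  classical
  have : NeZero n := ⟨by omega⟩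
  obtain ⟨X, hX⟩ := (IG n j k).exists_isNIndepSet_indepNum
  set A : Finset (ZMod n) := univ.filter fun i => (i, false) ∈ X with hA
  set B : Finset (ZMod n) := univ.filter fun i => (i, true) ∈ X with hB
  have hcard : X.card = A.card + B.card := by
    have e : X = A ×ˢ {false} ∪ B ×ˢ {true} := by
      ext ⟨i, b⟩
      cases b <;> simp [hA, hB]
    have e2 : (A ×ˢ {false} ∪ B ×ˢ {true} : Finset (ZMod n × Bool)).card = A.card + B.card := by
      rw [card_union_of_disjoint (by simp [disjoint_left])]; simp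
    rw [← e2, ← e]
  have hjn0 : (j : ZMod n) ≠ 0 := by
    intro h
    have := Nat.le_of_dvd (by omega) ((ZMod.natCast_eq_zero_iff j n).1 h)
    omega
  have hkn0 : (k : ZMod n) ≠ 0 := by
    intro h
    have := Nat.le_of_dvd (by omega) ((ZMod.natCast_eq_zero_iff k n).1 h)
    omega
  have hind := hX.isIndepSet
  have hA1 : ∀ i ∈ A, i + (j : ZMod n) ∉ A := by
    intro i hi hi'
    have a1 := (mem_filter.1 hi).2
    have a2 := (mem_filter.1 hi').2
    have hne : ((i, false) : ZMod n × Bool) ≠ (i + j, false) := by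
      intro h
      have := (Prod.mk.injEq _ _ _ _ ▸ h).1
      exact hjn0 (by simpa using this)
    exact hind a1 a2 hne ((SimpleGraph.fromRel_adj _ _ _).2 ⟨hne, Or.inl (Or.inl ⟨rfl, rfl, rfl⟩)⟩)
  have hB1 : ∀ i ∈ B, i + (k : ZMod n) ∉ B := by
    intro i hi hi'
    have a1 := (mem_filter.1 hi).2
    have a2 := (mem_filter.1 hi').2
    have hne : ((i, true) : ZMod n × Bool) ≠ (i + k, true) := by
      intro h
      have := (Prod.mk.injEq _ _ _ _ ▸ h).1
      exact hkn0 (by simpa using this)
    exact hind a1 a2 hne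
      ((SimpleGraph.fromRel_adj _ _ _).2 ⟨hne, Or.inl (Or.inr (Or.inr ⟨rfl, rfl, rfl⟩))⟩)
  have hAB : Disjoint A B := by
    rw [disjoint_left]
    intro i hi hi'
    have a1 := (mem_filter.1 hi).2
    have a2 := (mem_filter.1 hi').2
    have hne : ((i, false) : ZMod n × Bool) ≠ (i, true) := by simp
    exact hind a1 a2 hne
      ((SimpleGraph.fromRel_adj _ _ _).2 ⟨hne, Or.inl (Or.inr (Or.inl ⟨rfl, rfl, rfl⟩))⟩)
  have hα : (IG n j k).indepNum = A.card + B.card := by
    rw [← hcard]; exact hX.card_eq.symm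
  refine ⟨?_, fun m => ⟨fun h => ?_, fun h => ?_⟩⟩
  · rw [hα]
    have := half_card A j hA1
    have := half_card B k hB1
    omega
  · have := upper A B hAB hA1 hB1 h
    rw [hα]
    zify at this
    push_cast
    linarith
  · obtain ⟨d, hd⟩ : ∃ d, d = Nat.gcd (Nat.gcd n j) k := ⟨_, rfl⟩
    have hd0 : 0 < d := by
      rw [hd]
      exact Nat.gcd_pos_of_pos_right _ (by omega)
    obtain ⟨n', hn'⟩ : d ∣ n := hd ▸ (Nat.gcd_dvd_left _ _).trans (Nat.gcd_dvd_left _ _)
    obtain ⟨j', hj'⟩ : d ∣ j := hd ▸ (Nat.gcd_dvd_left _ _).trans (Nat.gcd_dvd_right _ _)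
    obtain ⟨k', hk'⟩ : d ∣ k := hd ▸ Nat.gcd_dvd_right _ _
    have hg : Nat.gcd (Nat.gcd n' j') k' = 1 := by
      rw [hn', hj', hk', Nat.gcd_mul_left, Nat.gcd_mul_left] at hd
      exact (Nat.eq_of_mul_eq_mul_left hd0 (by rw [mul_one]; exact hd)).symm
    have hn0 : 0 < n' := by
      rcases Nat.eq_zero_or_pos n' with h0 | h0
      · rw [h0, mul_zero] at hn'
        omega
      · exact h0
    clear hcard hα hAB hA1 hB1 hind hkn0 hjn0 hA hB hX
    clear_value A B
    clear A B X
    subst hn' hj' hk'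
    exact low_all hn0 hd0 hg h

end Pool.Agent.Results.MP_86031e_co.IGraphsTwoSided
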