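import Pool.Graph.R_pool_sql_team_ae5b0c61.Results.MP_86031e_co.FourFifths

/-!
# MP_86031e_co: the independence number of `P(n,k)` up to a constant factor in the deficiency,
and the cases of equality in the conjectured bound

Let `m` be the length of a shortest odd relation `p k ≡ q (mod n)` (`p - q` odd, length
`max |p| |q|`). Then `n / (2 m + 2) ≤ n - α(P(n,k)) ≤ 3 n / (2 m)`.
-/

set_option autoImplicit false

namespace Pool.Agent.Results.MP_86031e_co.TwoSided

open Finset FourFifths

/-- There are integers `p, q` with `|p|, |q| ≤ m`, `p - q` odd and `p k ≡ q (mod n)`. -/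
def OddRel (n k m : ℕ) : Prop :=
  ∃ p q : ℤ, (n : ℤ) ∣ p * k - q ∧ Odd (p - q) ∧ p.natAbs ≤ m ∧ q.natAbs ≤ m

lemma OddRel.mono {n k m m' : ℕ} (h : OddRel n k m) (hm : m ≤ m') : OddRel n k m' := by
  obtain ⟨p, q, h1, h2, h3, h4⟩ := h
  exact ⟨p, q, h1, h2, h3.trans hm, h4.trans hm⟩

/-! ### The upper bound for the deficiency -/

lemma latt {n k m : ℕ} (hn : 0 < n) (hno : ¬ OddRel n k m) :
    ∃ a j : ℤ, (m + 1) * ((2 * a - n).natAbs + (2 * a * k - n - 2 * n * j).natAbs) ≤ 3 * n := by
  classical
  by_cases hbip : n % 2 = 0 ∧ k % 2 = 1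
  · obtain ⟨h1, h2⟩ := hbip
    obtain ⟨n', hn'⟩ : ∃ n', n = 2 * n' := ⟨n / 2, by omega⟩
    obtain ⟨k', hk'⟩ : ∃ k', k = 2 * k' + 1 := ⟨k / 2, by omega⟩
    refine ⟨n', k', ?_⟩
    have e1 : (2 * (n' : ℤ) - n) = 0 := by rw [hn']; push_cast; ring
    have e2 : (2 * (n' : ℤ) * k - n - 2 * n * k') = 0 := by rw [hn', hk']; push_cast; ring
    rw [e1, e2]
    simp
  have ex : ∃ M, Short n k M := ⟨_, thue hn k⟩
  set M := Nat.find ex with hM
  have hMn : M * M ≤ n :=
    (Nat.mul_le_mul (Nat.find_le (thue hn k)) (Nat.find_le (thue hn k))).trans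
      (Nat.sqrt_le n)
  obtain ⟨p, q, s, e, h0, hp, hq⟩ := Nat.find_spec ex
  rw [← hM] at hp hq
  have M1 : 1 ≤ M := by omega
  have hmax : p.natAbs = M ∨ q.natAbs = M := by
    by_contra hh
    exact Nat.find_min ex (show M - 1 < M by omega) ⟨p, q, s, e, h0, by omega, by omega⟩
  obtain ⟨a0, j0, i0, bez⟩ : ∃ a0 j0 i0 : ℤ, a0 * s + p * j0 - q * i0 = 1 := by
    set g := Int.gcd p q with hg
    set d := Int.gcd s g with hd
    have g0 : 0 < g := Int.gcd_pos_iff.2 h0
    have d0 : 0 < d := Int.gcd_pos_iff.2 (Or.inr (by omega))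
    have d1 : d = 1 := by
      by_contra hh
      obtain ⟨s', hs'⟩ : (d : ℤ) ∣ s := Int.gcd_dvd_left _ _
      have dg : (d : ℤ) ∣ g := Int.gcd_dvd_right _ _
      obtain ⟨p', hp'⟩ : (d : ℤ) ∣ p := dg.trans (Int.gcd_dvd_left _ _)
      obtain ⟨q', hq'⟩ : (d : ℤ) ∣ q := dg.trans (Int.gcd_dvd_right _ _)
      have k1 : p.natAbs = d * p'.natAbs := by rw [hp', Int.natAbs_mul]; simp
      have k2 : q.natAbs = d * q'.natAbs := by rw [hq', Int.natAbs_mul]; simp
      have d2 : 2 ≤ d := by omega
      refine Nat.find_min ex (show M / 2 < M by omega) ⟨p', q', s', ?_, ?_, ?_, ?_⟩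
      · refine mul_left_cancel₀ (show (d : ℤ) ≠ 0 by omega) ?_
        rw [hs', hp', hq'] at e
        linear_combination e
      · by_contra hh
        push Not at hh
        rw [hp', hq', hh.1, hh.2] at h0
        simp at h0
      · have := Nat.mul_le_mul_right p'.natAbs d2
        omega
      · have := Nat.mul_le_mul_right q'.natAbs d2
        omega
    have b1 := Int.gcd_eq_gcd_ab p q
    have b2 := Int.gcd_eq_gcd_ab s g
    rw [← hd, d1] at b2
    rw [← hg] at b1
    refine ⟨Int.gcdA s g, Int.gcdA p q * Int.gcdB s g, -(Int.gcdB p q * Int.gcdB s g), ?_⟩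
    push_cast at b2
    linear_combination -b2 - Int.gcdB s g * b1
  obtain ⟨β, ε, hε, hβ⟩ : ∃ (β : ℤ) (ε : ℕ), ε ≤ 1 ∧ 2 * β - (p - q) = ε :=
    ⟨(p - q + 1) / 2, ((p - q) % 2).toNat, by omega, by omega⟩
  -- `2 (m + 1) M ≤ 3 n` if the shortest vector is even, `m + 1 ≤ M` if it is odd
  have key : (ε = 1 ∧ m + 1 ≤ M) ∨ (ε = 0 ∧ 2 * ((m + 1) * M) ≤ 3 * n) := by
    rcases (by omega : ε = 1 ∨ ε = 0) with hε1 | hε0
    · left
      refine ⟨hε1, ?_⟩
      by_contra hc
      refine hno (OddRel.mono (m := M) ⟨p, q, ⟨s, e⟩, ?_, hp, hq⟩ (by omega))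
      rw [Int.odd_iff]
      omega
    · right
      refine ⟨hε0, ?_⟩
      -- the second basis vector
      set p2 : ℤ := a0 + n * i0 with hp2
      set q2 : ℤ := a0 * k + n * j0 with hq2
      have det : p * q2 - q * p2 = n := by
        rw [hp2, hq2]
        linear_combination a0 * e + n * bez
      have rel2 : p2 * k - q2 = n * (i0 * k - j0) := by
        rw [hp2, hq2]; ring
      have heven : (p - q) % 2 = 0 := by omega
      have hodd2 : Odd (p2 - q2) := by
        -- an odd vector
        obtain ⟨x, y, z, hxy, hodd⟩ : ∃ x y z : ℤ, x * k - y = n * z ∧ Odd (x - y) := by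
          rcases (by omega : n % 2 = 1 ∨ k % 2 = 0) with h | h
          · refine ⟨n, 0, k, by ring, ?_⟩
            rw [Int.odd_iff]; omega
          · refine ⟨1, k, 0, by ring, ?_⟩
            rw [Int.odd_iff]; omega
        -- coordinates
        have c1 : (n : ℤ) ≠ 0 := by omega
        have f1 : p * y - q * x = n * (s * x - p * z) := by
          linear_combination x * e - p * hxy
        have f2 : x * q2 - y * p2 = n * (p2 * z - x * (i0 * k - j0)) := by
          linear_combination p2 * hxy - x * rel2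
        have g1 : x = (p2 * z - x * (i0 * k - j0)) * p + (s * x - p * z) * p2 := by
          refine mul_left_cancel₀ c1 ?_
          linear_combination -x * det + p * f2 + p2 * f1
        have g2 : y = (p2 * z - x * (i0 * k - j0)) * q + (s * x - p * z) * q2 := by
          refine mul_left_cancel₀ c1 ?_
          linear_combination -y * det + q * f2 + q2 * f1
        by_contra hc
        rw [Int.not_odd_iff_even] at hc
        have hev : Even (p - q) := Int.even_iff.2 heven
        have : x - y = (p2 * z - x * (i0 * k - j0)) * (p - q) + (s * x - p * z) * (p2 - q2) := by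
          linear_combination g1 - g2
        have h5 : Even (x - y) := by
          rw [this]
          exact (hev.mul_left _).add (hc.mul_left _)
        exact (Int.not_even_iff_odd.2 hodd) h5
      -- reduce the second vector
      have fin : ∀ α : ℤ, (2 * (α * p + p2).natAbs ≤ M ∧ p.natAbs = M) ∨
          (2 * (α * q + q2).natAbs ≤ M ∧ q.natAbs = M) →
          2 * ((m + 1) * M) ≤ 3 * n := by
        intro α hor
        set x := α * p + p2 with hx
        set y := α * q + q2 with hy
        have det' : p * y - q * x = n := by rw [hx, hy]; linear_combination det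
        have hodd' : Odd (x - y) := by
          have : x - y = α * (p - q) + (p2 - q2) := by rw [hx, hy]; ring
          rw [this]
          exact ((Int.even_iff.2 heven).mul_left _).add_odd hodd2
        have hrel : (n : ℤ) ∣ x * k - y :=
          ⟨α * s + (i0 * k - j0), by rw [hx, hy]; linear_combination α * e + rel2⟩
        have hmm : m + 1 ≤ x.natAbs ∨ m + 1 ≤ y.natAbs := by
          by_contra hc
          exact hno ⟨x, y, hrel, hodd', by omega, by omega⟩
        rcases hor with ⟨hxM, hpM'⟩ | ⟨hyM, hqM'⟩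
        · have e1 : p * y = n + q * x := by linarith
          have e2 := Int.natAbs_add_le (n : ℤ) (q * x)
          rw [← e1, Int.natAbs_mul, Int.natAbs_mul, hpM'] at e2
          simp only [Int.natAbs_natCast] at e2
          have e3 := Nat.mul_le_mul hq (le_refl x.natAbs)
          have e4 := Nat.mul_le_mul (le_refl M) hxM
          have e5 : M * (2 * x.natAbs) = 2 * (M * x.natAbs) := by ring
          rcases hmm with hh | hh
          · have e6 := Nat.mul_le_mul hh (le_refl M)
            have e7 : x.natAbs * M = M * x.natAbs := by ring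
            omega
          · have e6 := Nat.mul_le_mul hh (le_refl M)
            have e7 : y.natAbs * M = M * y.natAbs := by ring
            omega
        · have e1 : q * x = p * y - n := by linarith
          have e2 := Int.natAbs_sub_le (p * y) (n : ℤ)
          rw [← e1, Int.natAbs_mul, Int.natAbs_mul, hqM'] at e2
          simp only [Int.natAbs_natCast] at e2
          have e3 := Nat.mul_le_mul hp (le_refl y.natAbs)
          have e4 := Nat.mul_le_mul (le_refl M) hyM
          have e5 : M * (2 * y.natAbs) = 2 * (M * y.natAbs) := by ring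
          rcases hmm with hh | hh
          · have e6 := Nat.mul_le_mul hh (le_refl M)
            have e7 : x.natAbs * M = M * x.natAbs := by ring
            omega
          · have e6 := Nat.mul_le_mul hh (le_refl M)
            have e7 : y.natAbs * M = M * y.natAbs := by ring
            omega
      rcases hmax with h | h
      · obtain ⟨α, hα⟩ := near p (2 * p2) (by omega)
        refine fin α (Or.inl ⟨?_, h⟩)
        rw [← h]
        refine le_trans (le_of_eq ?_) hα
        rw [show 2 * α * p + 2 * p2 = 2 * (α * p + p2) by ring, Int.natAbs_mul]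
        rfl
      · obtain ⟨α, hα⟩ := near q (2 * q2) (by omega)
        refine fin α (Or.inr ⟨?_, h⟩)
        rw [← h]
        refine le_trans (le_of_eq ?_) hα
        rw [show 2 * α * q + 2 * q2 = 2 * (α * q + q2) by ring, Int.natAbs_mul]
        rfl
  have gen : ∀ α : ℤ, p * (2 * α * q + (2 * β * (a0 * k + n * j0) - n))
      - q * (2 * α * p + (2 * β * (a0 + n * i0) - n)) = n * ε := by
    intro α
    linear_combination 2 * β * a0 * e + 2 * β * n * bez + n * hβ
  have out : ∀ α : ℤ, (m + 1) * ((2 * α * p + (2 * β * (a0 + n * i0) - n)).natAbs +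
      (2 * α * q + (2 * β * (a0 * k + n * j0) - n)).natAbs) ≤ 3 * n →
      ∃ a j : ℤ, (m + 1) * ((2 * a - n).natAbs + (2 * a * k - n - 2 * n * j).natAbs) ≤ 3 * n := by
    intro α h
    refine ⟨α * p + β * (a0 + n * i0), α * s + β * (i0 * k - j0), ?_⟩
    convert h using 4
    · ring
    · linear_combination 2 * α * e
  -- the final estimate
  have est : ∀ B C : ℕ, B ≤ M → M * C ≤ n * ε + M * M → (m + 1) * (B + C) ≤ 3 * n := by
    intro B C hB hC
    rcases key with ⟨h1, h2⟩ | ⟨h1, h2⟩
    · rw [h1] at hC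
      calc (m + 1) * (B + C) ≤ M * (B + C) := Nat.mul_le_mul_right _ h2
        _ = M * B + M * C := by ring
        _ ≤ M * M + (n * 1 + M * M) := Nat.add_le_add (Nat.mul_le_mul_left _ hB) hC
        _ ≤ 3 * n := by omega
    · rw [h1] at hC
      have hCM : C ≤ M := Nat.le_of_mul_le_mul_left (by omega) (show 0 < M by omega)
      calc (m + 1) * (B + C) ≤ (m + 1) * (M + M) := Nat.mul_le_mul_left _ (by omega)
        _ = 2 * ((m + 1) * M) := by ring
        _ ≤ 3 * n := h2
  rcases hmax with h | h
  · obtain ⟨α, hα⟩ := near p (2 * β * (a0 + n * i0) - n) (by omega)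
    refine out α (est _ _ (by omega) ?_)
    have g := gen α
    generalize 2 * α * p + (2 * β * (a0 + n * i0) - n) = b at *
    generalize 2 * α * q + (2 * β * (a0 * k + n * j0) - n) = c at *
    have e1 : p * c = n * ε + q * b := by linarith
    have e2 := Int.natAbs_add_le ((n : ℤ) * ε) (q * b)
    rw [← e1, Int.natAbs_mul, Int.natAbs_mul, Int.natAbs_mul, h] at e2
    simp only [Int.natAbs_natCast] at e2
    have := Nat.mul_le_mul hq (hα.trans hp)
    omega
  · obtain ⟨α, hα⟩ := near q (2 * β * (a0 * k + n * j0) - n) (by omega)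
    refine out α ?_
    rw [add_comm (Int.natAbs _)]
    refine est _ _ (by omega) ?_
    have g := gen α
    generalize 2 * α * p + (2 * β * (a0 + n * i0) - n) = b at *
    generalize 2 * α * q + (2 * β * (a0 * k + n * j0) - n) = c at *
    have e1 : q * b = p * c - n * ε := by linarith
    have e2 := Int.natAbs_sub_le (p * c) ((n : ℤ) * ε)
    rw [← e1, Int.natAbs_mul, Int.natAbs_mul, Int.natAbs_mul, h] at e2
    simp only [Int.natAbs_natCast] at e2
    have := Nat.mul_le_mul hp (hα.trans hq)
    omega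

/-! ### The lower bound for the deficiency -/

lemma cyc (l : ℕ) (hodd : l % 2 = 1) (x : ℕ → Prop) [DecidablePred x]
    (h : ∀ t, t + 1 < l → ¬ (x t ∧ x (t + 1))) (hw : ¬ (x (l - 1) ∧ x 0)) :
    2 * ((range l).filter x).card + 1 ≤ l := by
  set T := (range l).filter x with hT
  set g : ℕ → ℕ := fun t => if t + 1 < l then t + 1 else 0 with hg
  have hinj : Set.InjOn g (T : Set ℕ) := by
    intro a ha b hb hab
    have ha' := mem_range.1 (mem_filter.1 (mem_coe.1 ha)).1
    have hb' := mem_range.1 (mem_filter.1 (mem_coe.1 hb)).1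
    simp only [hg] at hab
    split_ifs at hab <;> omega
  have hdis : Disjoint T (T.image g) := by
    rw [disjoint_left]
    intro a ha hb
    obtain ⟨b, hbT, rfl⟩ := mem_image.1 hb
    have hxb := (mem_filter.1 hbT).2
    have hbl := mem_range.1 (mem_filter.1 hbT).1
    have hxa := (mem_filter.1 ha).2
    simp only [hg] at hxa
    split_ifs at hxa with hc
    · exact h b hc ⟨hxb, hxa⟩
    · have : b = l - 1 := by omega
      rw [this] at hxb
      exact hw ⟨hxb, hxa⟩
  have hsub : T ∪ T.image g ⊆ range l := by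
    intro a ha
    rcases mem_union.1 ha with ha | ha
    · exact (mem_filter.1 ha).1
    · obtain ⟨b, hb, rfl⟩ := mem_image.1 ha
      have hbl := mem_range.1 (mem_filter.1 hb).1
      simp only [hg, mem_range]
      split_ifs <;> omega
  have := card_le_card hsub
  rw [card_union_of_disjoint hdis, card_image_of_injOn hinj, card_range] at this
  omega

lemma shift_card {n : ℕ} [NeZero n] (A : Finset (ZMod n)) (c : ZMod n) :
    (univ.filter fun i : ZMod n => i + c ∈ A).card = A.card := by
  refine card_bij (fun i _ => i + c) ?_ ?_ ?_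
  · intro i hi
    exact (mem_filter.1 hi).2
  · intro i _ j _ hij
    exact add_right_cancel hij
  · intro b hb
    exact ⟨b - c, by simpa using hb, by ring⟩

lemma half_card {n : ℕ} [NeZero n] (A : Finset (ZMod n)) (c : ZMod n)
    (h : ∀ i ∈ A, i + c ∉ A) : 2 * A.card ≤ n := by
  have h1 : Disjoint A (univ.filter fun i : ZMod n => i + c ∈ A) := by
    rw [disjoint_left]
    intro i hi hi'
    exact h i hi (mem_filter.1 hi').2
  have h2 := card_le_card (subset_univ (A ∪ univ.filter fun i : ZMod n => i + c ∈ A))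
  rw [card_union_of_disjoint h1, shift_card, card_univ, ZMod.card] at h2
  omega

lemma upper {n k m : ℕ} [NeZero n] (A B : Finset (ZMod n)) (hAB : Disjoint A B)
    (hA : ∀ i ∈ A, i + 1 ∉ A) (hB : ∀ i ∈ B, i + (k : ZMod n) ∉ B) (h : OddRel n k m) :
    n + 2 * (m + 1) * (A.card + B.card) ≤ 2 * (m + 1) * n := by
  classical
  obtain ⟨p, q, hrel, hodd, hp, hq⟩ := h
  set P := p.natAbs with hP
  set Q := q.natAbs with hQ
  have hpar : (P + Q + 2) % 2 = 1 := by
    rw [Int.odd_iff] at hodd
    omega
  have hcast : ((p * k : ℤ) : ZMod n) = (q : ZMod n) := by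
    have := (ZMod.intCast_eq_intCast_iff_dvd_sub q (p * k) n).2 hrel
    exact this.symm
  let wv : ℕ → ZMod n := fun t => ((p.sign * t * k : ℤ) : ZMod n)
  let wu : ℕ → ZMod n := fun r => ((q - q.sign * r : ℤ) : ZMod n)
  let x : ZMod n → ℕ → Prop := fun i t => if t ≤ P then i + wv t ∈ B else i + wu (t - P - 1) ∈ A
  have hwv0 : wv 0 = 0 := by simp [wv]
  have hwvP : wv P = wu 0 := by
    simp only [wv, wu, Nat.cast_zero, mul_zero, sub_zero]
    rw [← hcast, hP, Int.sign_mul_natAbs]
  have hwuQ : wu Q = 0 := by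
    simp only [wu]
    rw [hQ, Int.sign_mul_natAbs, sub_self, Int.cast_zero]
  have hwvs : ∀ t, t + 1 ≤ P → wv (t + 1) = wv t + k ∨ wv t = wv (t + 1) + k := by
    intro t ht
    have hp0 : p ≠ 0 := by rintro rfl; simp at hP; omega
    rcases lt_or_gt_of_ne hp0 with h0 | h0
    · right
      simp only [wv, Int.sign_eq_neg_one_of_neg h0]
      push_cast
      ring
    · left
      simp only [wv, Int.sign_eq_one_of_pos h0]
      push_cast
      ring
  have hwus : ∀ r, r + 1 ≤ Q → wu (r + 1) = wu r + 1 ∨ wu r = wu (r + 1) + 1 := by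
    intro r hr
    have hq0 : q ≠ 0 := by rintro rfl; simp at hQ; omega
    rcases lt_or_gt_of_ne hq0 with h0 | h0
    · left
      simp only [wu, Int.sign_eq_neg_one_of_neg h0]
      push_cast
      ring
    · right
      simp only [wu, Int.sign_eq_one_of_pos h0]
      push_cast
      ring
  have hcyc : ∀ i : ZMod n, 2 * ((range (P + Q + 2)).filter (x i)).card + 1 ≤ P + Q + 2 := by
    intro i
    refine cyc _ hpar (x i) ?_ ?_
    · rintro t ht ⟨h1, h2⟩
      simp only [x] at h1 h2
      by_cases c1 : t + 1 ≤ P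
      · rw [if_pos (by omega)] at h1
        rw [if_pos c1] at h2
        rcases hwvs t c1 with h3 | h3
        · rw [h3, ← add_assoc] at h2
          exact hB _ h1 h2
        · rw [h3, ← add_assoc] at h1
          exact hB _ h2 h1
      · rw [if_neg c1] at h2
        by_cases c2 : t ≤ P
        · have : t = P := by omega
          subst this
          rw [if_pos le_rfl, hwvP] at h1
          rw [show P + 1 - P - 1 = 0 by omega] at h2
          exact disjoint_left.1 hAB h2 h1
        · rw [if_neg c2] at h1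
          obtain ⟨r, rfl⟩ : ∃ r, t = P + 1 + r := ⟨t - P - 1, by omega⟩
          rw [show P + 1 + r - P - 1 = r by omega] at h1
          rw [show P + 1 + r + 1 - P - 1 = r + 1 by omega] at h2
          rcases hwus r (by omega) with h3 | h3
          · rw [h3, ← add_assoc] at h2
            exact hA _ h1 h2
          · rw [h3, ← add_assoc] at h1
            exact hA _ h2 h1
    · rintro ⟨h1, h2⟩
      simp only [x] at h1 h2
      rw [if_pos (Nat.zero_le _), hwv0] at h2
      rw [if_neg (by omega), show P + Q + 2 - 1 - P - 1 = Q by omega, hwuQ] at h1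
      exact disjoint_left.1 hAB h1 h2
  have hsum : ∑ i : ZMod n, ((range (P + Q + 2)).filter (x i)).card =
      (P + 1) * B.card + (Q + 1) * A.card := by
    simp only [card_filter]
    rw [sum_comm]
    have h1 : ∀ t ∈ range (P + Q + 2), (∑ i : ZMod n, if x i t then 1 else 0) =
        if t ≤ P then B.card else A.card := by
      intro t _
      rw [← card_filter]
      by_cases ht : t ≤ P
      · rw [if_pos ht, ← shift_card B (wv t)]
        congr 1
        refine filter_congr fun i _ => ?_
        simp only [x, if_pos ht]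
      · rw [if_neg ht, ← shift_card A (wu (t - P - 1))]
        congr 1
        refine filter_congr fun i _ => ?_
        simp only [x, if_neg ht]
    rw [sum_congr rfl h1, show P + Q + 2 = (P + 1) + (Q + 1) by ring, sum_range_add]
    congr 1
    · rw [sum_congr rfl (g := fun _ => B.card) (fun t ht => if_pos (by
        have := mem_range.1 ht; omega))]
      simp
    · rw [sum_congr rfl (g := fun _ => A.card) (fun t _ => if_neg (by omega))]
      simp
  have htot : 2 * ((P + 1) * B.card + (Q + 1) * A.card) + n ≤ n * (P + Q + 2) := by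
    rw [← hsum, mul_sum]
    have h1 : ∑ i : ZMod n, (2 * ((range (P + Q + 2)).filter (x i)).card + 1) ≤
        ∑ _i : ZMod n, (P + Q + 2) := sum_le_sum fun i _ => hcyc i
    rw [sum_add_distrib] at h1
    simp only [sum_const, card_univ, ZMod.card, smul_eq_mul, mul_one] at h1
    exact h1
  have hA2 := half_card A 1 hA
  have hB2 := half_card B k hB
  obtain ⟨u, hu⟩ : ∃ u, m = P + u := ⟨m - P, by omega⟩
  obtain ⟨v, hv⟩ : ∃ v, m = Q + v := ⟨m - Q, by omega⟩
  have hu2 := Nat.mul_le_mul_left u hB2
  have hv2 := Nat.mul_le_mul_left v hA2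
  have e1 : 2 * (m + 1) * (A.card + B.card) =
      2 * ((P + 1) * B.card + (Q + 1) * A.card) + u * (2 * B.card) + v * (2 * A.card) := by
    have : 2 * (m + 1) * (A.card + B.card) = 2 * (m + 1) * A.card + 2 * (m + 1) * B.card := by
      ring
    rw [this]
    nth_rewrite 1 [hv]
    rw [hu]
    ring
  have e2 : 2 * (m + 1) * n = n * (P + Q + 2) + u * n + v * n := by
    have : 2 * (m + 1) * n = (m + 1) * n + (m + 1) * n := by ring
    rw [this]
    nth_rewrite 1 [hv]
    rw [hu]
    ring
  rw [e1, e2]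
  omega

/-! ### Equality in the conjectured bound -/

lemma finish1 {n M B C ε : ℕ} (hn : 105 ≤ n) (hM : M * M ≤ n) (h1 : 1 ≤ M) (hB : B ≤ M)
    (hC : M * C ≤ n * ε + M * M) (hε : ε ≤ 1) (h3 : ε = 0 ∨ 3 ≤ M) :
    B + C + 2 * (4 * n / 5 + 1) ≤ 2 * n + 1 := by
  have key : 5 * (B + C) + 5 ≤ 2 * n := by
    rcases h3 with rfl | h3
    · have : C ≤ M := Nat.le_of_mul_le_mul_left (by omega) h1
      by_cases h : M ≤ 10
      · omega
      · nlinarith
    · have hC' : M * C ≤ n + M * M := by nlinarith
      by_cases h : M ≤ 7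
      · interval_cases M <;> omega
      · have : M * (5 * (B + C) + 5) ≤ M * (2 * n) := by nlinarith
        exact Nat.le_of_mul_le_mul_left this h1
  omega

lemma lattice1 {n k : ℕ} (hn : 105 ≤ n) (hk : 1 ≤ k) (hkn : 2 * k + 1 < n) (h2 : k ≠ 2) :
    ∃ a j : ℤ, (2 * a - n).natAbs + (2 * a * k - n - 2 * n * j).natAbs + 2 * (4 * n / 5 + 1)
      ≤ 2 * n + 1 := by
  classical
  have ex : ∃ M, Short n k M := ⟨_, thue (by omega) k⟩
  set M := Nat.find ex with hM
  have hMn : M * M ≤ n :=
    (Nat.mul_le_mul (Nat.find_le (thue (by omega) k)) (Nat.find_le (thue (by omega) k))).trans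
      (Nat.sqrt_le n)
  obtain ⟨p, q, s, e, h0, hp, hq⟩ := Nat.find_spec ex
  rw [← hM] at hp hq
  have M1 : 1 ≤ M := by omega
  have hmax : p.natAbs = M ∨ q.natAbs = M := by
    by_contra hh
    exact Nat.find_min ex (show M - 1 < M by omega) ⟨p, q, s, e, h0, by omega, by omega⟩
  obtain ⟨a0, j0, i0, bez⟩ : ∃ a0 j0 i0 : ℤ, a0 * s + p * j0 - q * i0 = 1 := by
    set g := Int.gcd p q with hg
    set d := Int.gcd s g with hd
    have g0 : 0 < g := Int.gcd_pos_iff.2 h0
    have d0 : 0 < d := Int.gcd_pos_iff.2 (Or.inr (by omega))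
    have d1 : d = 1 := by
      by_contra hh
      obtain ⟨s', hs'⟩ : (d : ℤ) ∣ s := Int.gcd_dvd_left _ _
      have dg : (d : ℤ) ∣ g := Int.gcd_dvd_right _ _
      obtain ⟨p', hp'⟩ : (d : ℤ) ∣ p := dg.trans (Int.gcd_dvd_left _ _)
      obtain ⟨q', hq'⟩ : (d : ℤ) ∣ q := dg.trans (Int.gcd_dvd_right _ _)
      have k1 : p.natAbs = d * p'.natAbs := by rw [hp', Int.natAbs_mul]; simp
      have k2 : q.natAbs = d * q'.natAbs := by rw [hq', Int.natAbs_mul]; simp
      have d2 : 2 ≤ d := by omega
      refine Nat.find_min ex (show M / 2 < M by omega) ⟨p', q', s', ?_, ?_, ?_, ?_⟩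
      · refine mul_left_cancel₀ (show (d : ℤ) ≠ 0 by omega) ?_
        rw [hs', hp', hq'] at e
        linear_combination e
      · by_contra hh
        push Not at hh
        rw [hp', hq', hh.1, hh.2] at h0
        simp at h0
      · have := Nat.mul_le_mul_right p'.natAbs d2
        omega
      · have := Nat.mul_le_mul_right q'.natAbs d2
        omega
    have b1 := Int.gcd_eq_gcd_ab p q
    have b2 := Int.gcd_eq_gcd_ab s g
    rw [← hd, d1] at b2
    rw [← hg] at b1
    refine ⟨Int.gcdA s g, Int.gcdA p q * Int.gcdB s g, -(Int.gcdB p q * Int.gcdB s g), ?_⟩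
    push_cast at b2
    linear_combination -b2 - Int.gcdB s g * b1
  obtain ⟨β, ε, hε, hβ⟩ : ∃ (β : ℤ) (ε : ℕ), ε ≤ 1 ∧ 2 * β - (p - q) = ε :=
    ⟨(p - q + 1) / 2, ((p - q) % 2).toNat, by omega, by omega⟩
  have h3 : ε = 0 ∨ 3 ≤ M := by
    by_contra hh
    have dv : ∀ t : ℤ, t = n * s → -n < t → t < n → t = 0 := fun t ht a b =>
      Int.eq_zero_of_abs_lt_dvd ⟨s, ht⟩ (abs_lt.2 ⟨a, b⟩)
    have hp1 : -2 ≤ p := by omega
    have hp2 : p ≤ 2 := by omega
    have := dv _ e
    interval_cases p <;> omega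
  have gen : ∀ α : ℤ, p * (2 * α * q + (2 * β * (a0 * k + n * j0) - n))
      - q * (2 * α * p + (2 * β * (a0 + n * i0) - n)) = n * ε := by
    intro α
    linear_combination 2 * β * a0 * e + 2 * β * n * bez + n * hβ
  have out : ∀ α : ℤ, (2 * α * p + (2 * β * (a0 + n * i0) - n)).natAbs +
      (2 * α * q + (2 * β * (a0 * k + n * j0) - n)).natAbs + 2 * (4 * n / 5 + 1) ≤ 2 * n + 1 →
      ∃ a j : ℤ, (2 * a - n).natAbs + (2 * a * k - n - 2 * n * j).natAbs + 2 * (4 * n / 5 + 1)
        ≤ 2 * n + 1 := by
    intro α h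
    refine ⟨α * p + β * (a0 + n * i0), α * s + β * (i0 * k - j0), ?_⟩
    convert h using 4
    · ring
    · linear_combination 2 * α * e
  rcases hmax with h | h
  · obtain ⟨α, hα⟩ := near p (2 * β * (a0 + n * i0) - n) (by omega)
    refine out α (finish1 hn hMn M1 (by omega) ?_ hε h3)
    have g := gen α
    generalize 2 * α * p + (2 * β * (a0 + n * i0) - n) = b at *
    generalize 2 * α * q + (2 * β * (a0 * k + n * j0) - n) = c at *
    have e1 : p * c = n * ε + q * b := by linarith
    have e2 := Int.natAbs_add_le ((n : ℤ) * ε) (q * b)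
    rw [← e1, Int.natAbs_mul, Int.natAbs_mul, Int.natAbs_mul, h] at e2
    simp only [Int.natAbs_natCast] at e2
    have := Nat.mul_le_mul hq (hα.trans hp)
    omega
  · obtain ⟨α, hα⟩ := near q (2 * β * (a0 * k + n * j0) - n) (by omega)
    refine out α ?_
    rw [add_comm (Int.natAbs _)]
    refine finish1 hn hMn M1 (by omega) ?_ hε h3
    have g := gen α
    generalize 2 * α * p + (2 * β * (a0 + n * i0) - n) = b at *
    generalize 2 * α * q + (2 * β * (a0 * k + n * j0) - n) = c at *
    have e1 : q * b = p * c - n * ε := by linarith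
    have e2 := Int.natAbs_sub_le (p * c) ((n : ℤ) * ε)
    rw [← e1, Int.natAbs_mul, Int.natAbs_mul, Int.natAbs_mul, h] at e2
    simp only [Int.natAbs_natCast] at e2
    have := Nat.mul_le_mul hp (hα.trans hq)
    omega

def chk1 : Bool := (List.range 105).all fun n => (List.range 53).all fun k =>
  decide (n < 31 ∨ k = 0 ∨ n ≤ 2 * k + 1 ∨ k = 2) || (List.range n).any fun a =>
    decide (FourFifths.dist (2 * a) n + FourFifths.dist (2 * a * k % (2 * n)) n +
      2 * (4 * n / 5 + 1) ≤ 2 * n + 1)

lemma chk1_true : chk1 = true := by decide +kernel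

lemma small1 {n k : ℕ} (hn0 : 31 ≤ n) (hn : n < 105) (hk : 1 ≤ k) (hkn : 2 * k + 1 < n)
    (h2 : k ≠ 2) :
    ∃ a j : ℤ, (2 * a - n).natAbs + (2 * a * k - n - 2 * n * j).natAbs + 2 * (4 * n / 5 + 1)
      ≤ 2 * n + 1 := by
  have := chk1_true
  simp only [chk1, List.all_eq_true, List.mem_range, Bool.or_eq_true, decide_eq_true_eq,
    List.any_eq_true] at this
  obtain ⟨a, -, h⟩ := (this n hn k (by omega)).resolve_left (by omega)
  refine ⟨a, (2 * a * k / (2 * n) : ℕ), ?_⟩
  have e := Nat.mod_add_div (2 * a * k) (2 * n)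
  have : (2 * (a : ℤ) * k - n - 2 * n * (2 * a * k / (2 * n) : ℕ)) =
      (2 * a * k % (2 * n) : ℕ) - n := by
    zify at e ⊢
    linarith
  rw [this]
  unfold FourFifths.dist at h
  omega

lemma good1 {n k : ℕ} (hn : 31 ≤ n) (hk : 1 ≤ k) (hkn : 2 * k + 1 < n) (h2 : k ≠ 2) :
    Good n 1 k (4 * n / 5 + 1) := by
  have : NeZero n := ⟨by omega⟩
  by_cases h : n < 105
  · obtain ⟨a, j, h⟩ := small1 hn h hk hkn h2
    exact avg k a j _ h
  · obtain ⟨a, j, h⟩ := lattice1 (by omega) hk hkn h2
    exact avg k a j _ h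

lemma window {n : ℕ} [NeZero n] (A B : Finset (ZMod n)) (s : ZMod n) (hAB : Disjoint A B)
    (hA : ∀ i ∈ A, i + s ∉ A) (hB : ∀ i ∈ B, i + 2 * s ∉ B) :
    5 * (A.card + B.card) ≤ 4 * n := by
  classical
  let x : ZMod n → ℕ → ℕ := fun i j => if i + j * s ∈ A then 1 else 0
  let y : ZMod n → ℕ → ℕ := fun i j => if i + j * s ∈ B then 1 else 0
  have hxy : ∀ i j, x i j + y i j ≤ 1 := by
    intro i j
    simp only [x, y]
    split_ifs with h1 h2
    · exact absurd h2 (disjoint_left.1 hAB h1)
    all_goals omega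
  have hxx : ∀ i j, x i j + x i (j + 1) ≤ 1 := by
    intro i j
    simp only [x]
    split_ifs with h1 h2
    · refine absurd ?_ (hA _ h1)
      convert h2 using 1
      push_cast
      ring
    all_goals omega
  have hyy : ∀ i j, y i j + y i (j + 2) ≤ 1 := by
    intro i j
    simp only [y]
    split_ifs with h1 h2
    · refine absurd ?_ (hB _ h1)
      convert h2 using 1
      push_cast
      ring
    all_goals omega
  have hf : ∀ i, ∑ j ∈ range 5, (x i j + y i j) ≤ 4 := by
    intro i
    simp only [sum_range_succ, sum_range_zero]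
    have a0 := hxy i 0
    have a1 := hxy i 1
    have a2 := hxy i 2
    have a3 := hxy i 3
    have a4 := hxy i 4
    have b0 := hxx i 0
    have b1 := hxx i 1
    have b2 := hxx i 2
    have b3 := hxx i 3
    have c0 := hyy i 0
    have c1 := hyy i 1
    have c2 := hyy i 2
    norm_num at b0 b1 b2 b3 c0 c1 c2
    rcases Nat.lt_or_ge (x i 2) 1 with h | h <;> omega
  have hsum : ∑ i : ZMod n, ∑ j ∈ range 5, (x i j + y i j) = 5 * (A.card + B.card) := by
    rw [sum_comm]
    have h1 : ∀ j ∈ range 5, ∑ i : ZMod n, (x i j + y i j) = A.card + B.card := by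
      intro j _
      rw [sum_add_distrib]
      simp only [x, y]
      rw [← card_filter, ← card_filter, shift_card, shift_card]
    rw [sum_congr rfl h1]
    simp
  rw [← hsum]
  refine (sum_le_sum fun i _ => hf i).trans ?_
  simp only [sum_const, card_univ, ZMod.card, smul_eq_mul]
  omega

/-! ### The theorem -/

lemma good_indep {n k m : ℕ} [NeZero n] (h : Good n 1 k m) : m ≤ (GP n k).indepNum := by
  obtain ⟨A, B, h1, h2, h3, h4⟩ := h
  set S : Finset (ZMod n × Bool) := A ×ˢ {false} ∪ B ×ˢ {true} with hS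
  have cS : S.card = A.card + B.card := by
    rw [hS, card_union_of_disjoint (by simp [disjoint_left])]; simp
  have rel : ∀ x y, x ∈ S → y ∈ S → ¬ ((x.2 = false ∧ y.2 = false ∧ y.1 = x.1 + 1) ∨
      (x.2 = false ∧ y.2 = true ∧ y.1 = x.1) ∨
      (x.2 = true ∧ y.2 = true ∧ y.1 = x.1 + (k : ZMod n))) := by
    rintro ⟨a, s⟩ ⟨b, t⟩ hx hy (⟨rfl, rfl, rfl⟩ | ⟨rfl, rfl, rfl⟩ | ⟨rfl, rfl, rfl⟩) <;>
      simp [hS] at hx hy
    · exact h2 _ hx hy
    · exact disjoint_left.1 h1 hx hy
    · exact h3 _ hx hy
  have ind : ∀ x y, x ∈ S → y ∈ S → ¬ (GP n k).Adj x y := by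
    intro x y hx hy h
    rcases ((SimpleGraph.fromRel_adj _ _ _).1 h).2 with h | h
    · exact rel x y hx hy h
    · exact rel y x hy hx h
  have : (GP n k).IsIndepSet (S : Set (ZMod n × Bool)) := fun x hx y hy _ => ind x y hx hy
  exact (h4.trans cS.ge).trans this.card_le_indepNum

/-- The bounds `β(P(n,k)) ≤ n + ⌈n/5⌉` and `α(P(n,k)) ≥ ⌊4n/5⌋`. Moreover the deficiency
`n - α(P(n,k))` is at least `n / (2 (m + 1))` if there is an odd relation of length at most `m`,
and at most `3 n / (2 (m + 1))` if there is none. -/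
theorem result (n k : ℕ) (hn : 3 ≤ n) (hk : 1 ≤ k) (hkn : 2 * k < n) :
    (GP n k).vertexCoverNum ≤ ((n + (n + 4) / 5 : ℕ) : ℕ∞) ∧
    4 * n / 5 ≤ (GP n k).indepNum ∧ (GP n k).indepNum ≤ n ∧
    (∀ m : ℕ,
      (OddRel n k m → (n : ℤ) ≤ 2 * (m + 1) * ((n : ℤ) - (GP n k).indepNum)) ∧
      (¬ OddRel n k m → 2 * (m + 1) * ((n : ℤ) - (GP n k).indepNum) ≤ 3 * n)) ∧
    (31 ≤ n → ((GP n k).indepNum = 4 * n / 5 ↔ k = 2 ∨ n = 2 * k + 1)) := by
  classical
  have : NeZero n := ⟨by omega⟩
  obtain ⟨X, hX⟩ := (GP n k).exists_isNIndepSet_indepNum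
  set A : Finset (ZMod n) := univ.filter fun i => (i, false) ∈ X with hA
  set B : Finset (ZMod n) := univ.filter fun i => (i, true) ∈ X with hB
  have hcard : X.card = A.card + B.card := by
    have e : X = A ×ˢ {false} ∪ B ×ˢ {true} := by
      ext ⟨i, b⟩
      cases b <;> simp [hA, hB]
    have e2 : (A ×ˢ {false} ∪ B ×ˢ {true} : Finset (ZMod n × Bool)).card = A.card + B.card := by
      rw [card_union_of_disjoint (by simp [disjoint_left])]; simp
    rw [← e2, ← e]
  have h1n : (1 : ZMod n) ≠ 0 := by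
    intro h
    have := (ZMod.natCast_eq_zero_iff 1 n).1 (by exact_mod_cast h)
    have := Nat.le_of_dvd one_pos this
    omega
  have hkn0 : (k : ZMod n) ≠ 0 := by
    intro h
    have := Nat.le_of_dvd (by omega) ((ZMod.natCast_eq_zero_iff k n).1 h)
    omega
  have hind := hX.isIndepSet
  have hA1 : ∀ i ∈ A, i + 1 ∉ A := by
    intro i hi hi'
    have a1 := (mem_filter.1 hi).2
    have a2 := (mem_filter.1 hi').2
    have hne : ((i, false) : ZMod n × Bool) ≠ (i + 1, false) := by
      intro h
      have := (Prod.mk.injEq _ _ _ _ ▸ h).1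
      exact h1n (by simpa using this)
    exact hind a1 a2 hne ((SimpleGraph.fromRel_adj _ _ _).2 ⟨hne, Or.inl (Or.inl ⟨rfl, rfl, rfl⟩)⟩)
  have hB1 : ∀ i ∈ B, i + (k : ZMod n) ∉ B := by
    intro i hi hi'
    have a1 := (mem_filter.1 hi).2
    have a2 := (mem_filter.1 hi').2
    have hne : ((i, true) : ZMod n × Bool) ≠ (i + k, true) := by
      intro h
      have := (Prod.mk.injEq _ _ _ _ ▸ h).1
      exact hkn0 (by simpa using this)
    exact hind a1 a2 hne
      ((SimpleGraph.fromRel_adj _ _ _).2 ⟨hne, Or.inl (Or.inr (Or.inr ⟨rfl, rfl, rfl⟩))⟩)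
  have hAB : Disjoint A B := by
    rw [disjoint_left]
    intro i hi hi'
    have a1 := (mem_filter.1 hi).2
    have a2 := (mem_filter.1 hi').2
    have hne : ((i, false) : ZMod n × Bool) ≠ (i, true) := by simp
    exact hind a1 a2 hne
      ((SimpleGraph.fromRel_adj _ _ _).2 ⟨hne, Or.inl (Or.inr (Or.inl ⟨rfl, rfl, rfl⟩))⟩)
  have hα : (GP n k).indepNum = A.card + B.card := by
    rw [← hcard]; exact hX.card_eq.symm
  refine ⟨(FourFifths.result n k hn hk hkn).1, (FourFifths.result n k hn hk hkn).2, ?_,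
    fun m => ⟨fun h => ?_, fun h => ?_⟩, fun hn31 => ⟨fun h => ?_, fun h => ?_⟩⟩
  · rw [hα]
    have := half_card A 1 hA1
    have := half_card B k hB1
    omega
  · have := upper A B hAB hA1 hB1 h
    rw [hα]
    zify at this
    push_cast
    linarith
  · obtain ⟨a, j, hD⟩ := latt (by omega) h
    set D := (2 * a - n).natAbs + (2 * a * k - n - 2 * n * j).natAbs with hDd
    have hgood : (2 * n + 1 - D) / 2 ≤ (GP n k).indepNum := by
      by_cases hc : D ≤ 2 * n + 1
      · exact good_indep (avg k a j _ (by omega))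
      · have : 2 * n + 1 - D = 0 := by omega
        rw [this]
        exact Nat.zero_le _
    have h2 : 2 * ((n : ℤ) - (GP n k).indepNum) ≤ D := by omega
    have h3 : ((m : ℤ) + 1) * D ≤ 3 * n := by exact_mod_cast hD
    have h4 : (0 : ℤ) ≤ (m : ℤ) + 1 := by positivity
    nlinarith [mul_le_mul_of_nonneg_left h2 h4]
  · by_contra hc
    push Not at hc
    have := good_indep (good1 hn31 hk (by omega) hc.1)
    omega
  · have hlow := (FourFifths.result n k hn hk hkn).2
    have hup : 5 * (A.card + B.card) ≤ 4 * n := by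
      rcases h with rfl | h
      · refine window A B 1 hAB hA1 fun i hi => ?_
        have := hB1 i hi
        rw [mul_one]
        exact_mod_cast this
      · have e : (2 : ZMod n) * k = -1 := by
          have h1 : ((2 * k + 1 : ℕ) : ZMod n) = 0 := by rw [← h]; exact ZMod.natCast_self n
          push_cast at h1
          linear_combination h1
        have := window B A (k : ZMod n) hAB.symm hB1 fun i hi hi' => by
          rw [e] at hi'
          have := hA1 _ hi'
          rw [neg_add_cancel_right] at this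
          exact this hi
        omega
    omega

end Pool.Agent.Results.MP_86031e_co.TwoSided
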